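import Mathlib

/-!
Polynomials of degree at most 2 in each variable with given values on the cube and unchanged
values at finitely many points.
-/

namespace Pool.Agent.LibAL48

open MvPolynomial Finset

variable {K : Type} [Field K] {n : ℕ}

/-- The point of the cube. -/
def cub (K : Type) [Field K] {n : ℕ} (w : Fin n → Bool) : Fin n → K := fun i => if w i then 1 else 0

/-- The indicator polynomial of a point of the cube. -/
noncomputable def del (K : Type) [Field K] {n : ℕ} (w : Fin n → Bool) : MvPolynomial (Fin n) K :=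
  ∏ i, if w i then X i else 1 - X i

/-- The multilinear polynomial with given values on the cube. -/
noncomputable def ml (c : (Fin n → Bool) → K) : MvPolynomial (Fin n) K := ∑ w, C (c w) * del K w

theorem eval_del_cub (v w : Fin n → Bool) : eval (cub K v) (del K w) = if v = w then 1 else 0 := by
  unfold del
  rw [map_prod]
  split_ifs with h
  · subst h
    refine Finset.prod_eq_one fun i _ => ?_
    by_cases h1 : v i <;> simp [cub, h1]
  · obtain ⟨i, hi⟩ : ∃ i, v i ≠ w i := by
      by_contra hcon
      push Not at hcon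
      exact h (funext hcon)
    refine Finset.prod_eq_zero (Finset.mem_univ i) ?_
    cases h1 : v i <;> cases h2 : w i <;> simp_all [cub]

theorem degreeOf_del (w : Fin n → Bool) (i : Fin n) : (del K w).degreeOf i ≤ 1 := by
  unfold del
  refine le_trans (degreeOf_prod_le i _ _) ?_
  have h1 : ∀ k : Fin n, (if w k then (X k : MvPolynomial (Fin n) K) else 1 - X k).degreeOf i ≤
      if k = i then 1 else 0 := by
    intro k
    have h2 : (X k : MvPolynomial (Fin n) K).degreeOf i ≤ if k = i then 1 else 0 := by
      rw [degreeOf_X]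
      by_cases h3 : i = k
      · rw [if_pos h3, if_pos h3.symm]
      · rw [if_neg h3, if_neg (fun h => h3 h.symm)]
    cases h4 : w k
    · rw [if_neg (by simp)]
      refine le_trans (degreeOf_sub_le i _ _) (max_le ?_ h2)
      rw [show (1 : MvPolynomial (Fin n) K) = C 1 by simp, degreeOf_C]
      exact Nat.zero_le _
    · rw [if_pos rfl]
      exact h2
  refine le_trans (Finset.sum_le_sum fun k _ => h1 k) ?_
  rw [Finset.sum_ite_eq' Finset.univ i]
  simp

theorem degreeOf_sum_le' {ι : Type*} (s : Finset ι) (f : ι → MvPolynomial (Fin n) K) (i : Fin n)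
    (d : ℕ) (h : ∀ k ∈ s, (f k).degreeOf i ≤ d) : (∑ k ∈ s, f k).degreeOf i ≤ d := by
  refine le_trans (degreeOf_sum_le i s f) ?_
  exact Finset.sup_le h

theorem degreeOf_ml (c : (Fin n → Bool) → K) (i : Fin n) : (ml c).degreeOf i ≤ 1 := by
  unfold ml
  refine degreeOf_sum_le' _ _ i 1 fun w _ => ?_
  refine le_trans (degreeOf_mul_le i _ _) ?_
  rw [degreeOf_C, zero_add]
  exact degreeOf_del w i

theorem eval_ml (c : (Fin n → Bool) → K) (y : Fin n → K) :
    eval y (ml c) = ∑ w, c w * eval y (del K w) := by
  unfold ml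
  rw [map_sum]
  refine Finset.sum_congr rfl fun w _ => ?_
  rw [map_mul, eval_C]

theorem eval_ml_cub (c : (Fin n → Bool) → K) (v : Fin n → Bool) : eval (cub K v) (ml c) = c v := by
  rw [eval_ml]
  simp [eval_del_cub]

/-- The points of the cube at which the value of a multilinear polynomial is determined by its
values on `Y`. -/
def Bad (Y : Set (Fin n → K)) : Set (Fin n → Bool) :=
  {w | ∀ c : (Fin n → Bool) → K, (∀ y ∈ Y, eval y (ml c) = 0) → c w = 0}

theorem Bad.mono {Y Y' : Set (Fin n → K)} (h : Y ⊆ Y') : Bad Y ⊆ Bad Y' :=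
  fun _ hw c hc => hw c fun y hy => hc y (h hy)

theorem card_bad_le (Y : Finset (Fin n → K)) (B : Finset (Fin n → Bool))
    (hB : ∀ w ∈ B, w ∈ Bad (Y : Set (Fin n → K))) : B.card ≤ Y.card := by
  classical
  by_contra hcon
  push Not at hcon
  -- the values on `Y` of the multilinear polynomials supported by `B`
  let f : (B → K) →ₗ[K] (Y → K) :=
    { toFun := fun c y => ∑ w : B, c w * eval (y : Fin n → K) (del K (w : Fin n → Bool))
      map_add' := fun c c' => by
        funext y
        simp only [Pi.add_apply, add_mul, Finset.sum_add_distrib]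
      map_smul' := fun a c => by
        funext y
        simp only [Pi.smul_apply, smul_eq_mul, RingHom.id_apply, Finset.mul_sum, mul_assoc] }
  have hker : LinearMap.ker f ≠ ⊥ := by
    refine LinearMap.ker_ne_bot_of_finrank_lt ?_
    rw [Module.finrank_fintype_fun_eq_card, Module.finrank_fintype_fun_eq_card, Fintype.card_coe,
      Fintype.card_coe]
    exact hcon
  obtain ⟨c, hc, hc0⟩ := Submodule.exists_mem_ne_zero_of_ne_bot hker
  apply hc0
  funext w
  have hc1 : f c = 0 := hc
  set c' : (Fin n → Bool) → K := fun v => if h : v ∈ B then c ⟨v, h⟩ else 0 with hc'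
  have h1 := hB w w.2 c' (by
    intro y hy
    have h2 := congrFun hc1 ⟨y, hy⟩
    rw [eval_ml]
    have h3 : ∑ v, c' v * eval y (del K v) = ∑ v ∈ B, c' v * eval y (del K v) := by
      symm
      refine Finset.sum_subset (Finset.subset_univ _) fun v _ hv => ?_
      simp only [hc', dif_neg hv, zero_mul]
    rw [h3, ← Finset.sum_coe_sort]
    have h4 : ∀ v : B, c' v = c v := fun v => by
      simp only [hc', dif_pos v.2]
    simp only [h4]
    exact h2)
  simp only [hc', dif_pos w.2] at h1
  exact h1

theorem exists_killer {Y : Set (Fin n → K)} {w : Fin n → Bool} (hw : w ∉ Bad Y) :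
    ∃ p : MvPolynomial (Fin n) K, (∀ i, p.degreeOf i ≤ 2) ∧ (∀ y ∈ Y, eval y p = 0) ∧
      ∀ v, eval (cub K v) p = if v = w then 1 else 0 := by
  unfold Bad at hw
  rw [Set.mem_ofPred_eq] at hw
  push Not at hw
  obtain ⟨c, hc, hcw⟩ := hw
  refine ⟨C (c w)⁻¹ * (ml c * del K w), fun i => ?_, fun y hy => ?_, fun v => ?_⟩
  · refine le_trans (degreeOf_mul_le i _ _) ?_
    rw [degreeOf_C, zero_add]
    refine le_trans (degreeOf_mul_le i _ _) ?_
    have h1 := degreeOf_ml c i
    have h2 := degreeOf_del (K := K) w i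
    omega
  · rw [map_mul, map_mul, hc y hy]
    simp
  · rw [map_mul, map_mul, eval_C, eval_ml_cub, eval_del_cub]
    split_ifs with h
    · rw [h, mul_one, inv_mul_cancel₀ hcw]
    · simp

/-- Changing the values on the cube without changing the values on `Y`. -/
theorem exists_change {Y : Set (Fin n → K)} {P : MvPolynomial (Fin n) K} {f₀ f : (Fin n → Bool) → Bool}
    (hd : ∀ i, P.degreeOf i ≤ 2) (hP : ∀ v, eval (cub K v) P = if f₀ v then 1 else 0)
    (hf : ∀ v ∈ Bad Y, f v = f₀ v) :
    ∃ P' : MvPolynomial (Fin n) K, (∀ i, P'.degreeOf i ≤ 2) ∧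
      (∀ v, eval (cub K v) P' = if f v then 1 else 0) ∧ ∀ y ∈ Y, eval y P' = eval y P := by
  classical
  have h1 : ∀ w, ∃ p : MvPolynomial (Fin n) K, (∀ i, p.degreeOf i ≤ 2) ∧ (∀ y ∈ Y, eval y p = 0) ∧
      ∀ v, eval (cub K v) p = if v = w then
        ((if f v then 1 else 0) - (if f₀ v then 1 else 0) : K) else 0 := by
    intro w
    by_cases hw : w ∈ Bad Y
    · refine ⟨0, fun i => by simp, fun y _ => by simp, fun v => ?_⟩
      split_ifs with h2
      all_goals simp_all
    · obtain ⟨p, hp1, hp2, hp3⟩ := exists_killer hw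
      refine ⟨C ((if f w then 1 else 0) - (if f₀ w then 1 else 0) : K) * p, fun i => ?_,
        fun y hy => ?_, fun v => ?_⟩
      · refine le_trans (degreeOf_mul_le i _ _) ?_
        rw [degreeOf_C, zero_add]
        exact hp1 i
      · rw [map_mul, hp2 y hy, mul_zero]
      · rw [map_mul, hp3, eval_C]
        by_cases h2 : v = w
        · rw [if_pos h2, if_pos h2, mul_one, h2]
        · rw [if_neg h2, if_neg h2, mul_zero]
  choose p hp1 hp2 hp3 using h1
  refine ⟨P + ∑ w, p w, fun i => ?_, fun v => ?_, fun y hy => ?_⟩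
  · refine le_trans (degreeOf_add_le i _ _) (max_le (hd i) ?_)
    exact degreeOf_sum_le' _ _ i 2 fun w _ => hp1 w i
  · rw [map_add, map_sum, hP]
    simp only [hp3]
    rw [Finset.sum_ite_eq]
    simp
  · rw [map_add, map_sum, Finset.sum_eq_zero fun w _ => hp2 w y hy, add_zero]

end Pool.Agent.LibAL48
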