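import Pool.Agent.LibNexp.Advice

/-!
Extensions of an oracle by polynomials over all fields of a family.
-/

namespace Pool.Agent.LibAL48

open Pool.Agent.LibNexp MvPolynomial

/-- Families of fields, indexed by strings, with codes of their elements. -/
structure Fields where
  /-- the fields -/
  K : List Bool → Type
  inst : ∀ s, Field (K s)
  /-- the codes of the elements -/
  enc : ∀ s, K s → List Bool
  inj : ∀ s, Function.Injective (enc s)

instance (𝕂 : Fields) (s : List Bool) : Field (𝕂.K s) := 𝕂.inst s

/-- `P` extends `O`: for every field and every number of variables a polynomial of degree at most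
2 in every variable, with the values of `O` on the points with coordinates 0 and 1. -/
def IsExt (𝕂 : Fields) (O : List Bool → Bool) (P : ∀ s n, MvPolynomial (Fin n) (𝕂.K s)) : Prop :=
  ∀ s n, (∀ i, (P s n).degreeOf i ≤ 2) ∧ ∀ w : Fin n → Bool,
    eval (fun i => if w i then 1 else 0) (P s n) = if O (List.ofFn w) then 1 else 0

/-- Coding a list of strings. -/
def lst : List (List Bool) → List Bool
  | [] => []
  | a :: l => pair a (lst l)

/-- The query for bit number `j` of the value at the point `y` over the field `s`. -/
def qry (𝕂 : Fields) (s : List Bool) {n : ℕ} (j : ℕ) (y : Fin n → 𝕂.K s) : List Bool :=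
  pair s (pair (List.replicate j true) (lst (List.ofFn fun i => 𝕂.enc s (y i))))

open Classical in
/-- The oracle answering the queries `0u` by `O u`, and the queries `1⟨s, 1^j, y⟩` by bit number
`j` of the self-delimiting code of the value at `y` of the polynomial over the field `s`. -/
noncomputable def ext (𝕂 : Fields) (O : List Bool → Bool)
    (P : ∀ s n, MvPolynomial (Fin n) (𝕂.K s)) : List Bool → Bool
  | [] => false
  | false :: u => O u
  | true :: u => decide (∃ (s : List Bool) (n j : ℕ) (y : Fin n → 𝕂.K s), u = qry 𝕂 s j y ∧
      (pair (𝕂.enc s (eval y (P s n))) [])[j]? = some true)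

end Pool.Agent.LibAL48
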