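import Pool.Agent.LibCL48.Oracle

/-!
Systems of richer oracles: for every length a choice of a plain oracle on the strings of this
length together with further data; programs ask queries whose answers depend on one level.
Fixing the answers to finitely many queries fixes at most as many values of the plain oracle.
-/

namespace Pool.Agent.LibAL48

open Function Pool.Agent.LibNexp
open Pool.Agent.LibCL48 (Data)

/-- Systems of richer oracles. -/
structure Sys where
  /-- the worlds at a level -/
  X : ℕ → Type
  /-- the plain oracle of a world, on the strings of length `n` -/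
  pl : ∀ n, X n → List Bool → Bool
  /-- the answers to the queries of level `n` -/
  an : ∀ n, X n → List Bool → Bool
  /-- the level of a query -/
  lv : List Bool → ℕ
  lv_le : ∀ t, lv t ≤ t.length
  /-- the strings whose values are fixed by the answers to the given queries -/
  bad : Finset (List Bool) → Finset (List Bool)
  card_bad : ∀ Z, (bad Z).card ≤ Z.card
  bad_lv : ∀ Z, ∀ s ∈ bad Z, ∃ t ∈ Z, lv t = s.length
  bad_mono : ∀ Z Z', Z ⊆ Z' → bad Z ⊆ bad Z'
  ex : ∀ n (f : List Bool → Bool), ∃ x : X n, ∀ s : List Bool, s.length = n → pl n x s = f s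
  move : ∀ n (x : X n) (Z : Finset (List Bool)) (f : List Bool → Bool),
    (∀ s ∈ bad Z, s.length = n → f s = pl n x s) →
    ∃ x' : X n, (∀ s : List Bool, s.length = n → pl n x' s = f s) ∧
      ∀ t ∈ Z, lv t = n → an n x' t = an n x t

/-- Worlds. -/
abbrev Sys.W (S : Sys) : Type := ∀ n, S.X n

/-- The plain oracle of a world. -/
def Sys.plain (S : Sys) (E : S.W) (s : List Bool) : Bool := S.pl s.length (E s.length) s

/-- The rich oracle of a world. -/
def Sys.rich (S : Sys) (E : S.W) (t : List Bool) : Bool := S.an (S.lv t) (E (S.lv t)) t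

variable {S : Sys}

theorem plain_agree {E E' : S.W} {s : List Bool} (h : E s.length = E' s.length) :
    S.plain E s = S.plain E' s := by
  unfold Sys.plain
  rw [h]

theorem rich_agree {E E' : S.W} {L : ℕ} (h : ∀ n ≤ L, E n = E' n) {t : List Bool}
    (ht : t.length ≤ L) : S.rich E t = S.rich E' t := by
  unfold Sys.rich
  rw [h _ (le_trans (S.lv_le t) ht)]

theorem bad_len {Z : Finset (List Bool)} {θ : ℕ} (h : ∀ t ∈ Z, t.length ≤ θ) :
    ∀ s ∈ S.bad Z, s.length ≤ θ := by
  intro s hs
  obtain ⟨t, ht, h1⟩ := S.bad_lv Z s hs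
  rw [← h1]
  exact le_trans (S.lv_le t) (h t ht)

/-- Program number `N` accepts `x` in its time. -/
def AccN (S : Sys) (D : Data) (E : S.W) (N : ℕ) (x : List Bool) : Prop :=
  Acc (S.rich E) (D.prog N) (2 ^ D.clock N x.length) x

theorem accN_agree {D : Data} {E E' : S.W} {N : ℕ} {x : List Bool}
    (h : ∀ n ≤ D.q N x.length, E n = E' n) : AccN S D E N x ↔ AccN S D E' N x :=
  ⟨fun h1 => acc_agree (fun _ hs => rich_agree h hs) h1,
    fun h1 => acc_agree (fun _ hs => (rich_agree h hs).symm) h1⟩

/-- The choice of a world with a given plain oracle, given answers to finitely many queries and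
given low levels, level by level. -/
theorem exists_glue (S : Sys) (ℓ : ℕ) (E₀ V : S.W) (Z : Finset (List Bool)) :
    ∃ G : (List Bool → Bool) → S.W,
      (∀ O O' n, (∀ s : List Bool, s.length = n → O s = O' s) → G O n = G O' n) ∧
      ∀ O, (∀ s : List Bool, s.length < ℓ → O s = S.plain E₀ s) →
        (∀ s ∈ S.bad Z, O s = S.plain V s) → (∀ n < ℓ, V n = E₀ n) →
        (∀ s, S.plain (G O) s = O s) ∧ (∀ n < ℓ, G O n = E₀ n) ∧
          ∀ t ∈ Z, S.rich (G O) t = S.rich V t := by
  classical
  set P : ∀ n, (List Bool → Bool) → S.X n → Prop := fun n f x =>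
    (∀ s : List Bool, s.length = n → S.pl n x s = f s) ∧
      ∀ t ∈ Z, S.lv t = n → S.an n x t = S.an n (V n) t with hP
  set g : ∀ n, (List Bool → Bool) → S.X n := fun n f =>
    if n < ℓ then E₀ n else if h : ∃ x, P n f x then h.choose else E₀ n with hg
  set cut : ℕ → (List Bool → Bool) → (List Bool → Bool) := fun n O s =>
    if s.length = n then O s else false with hcut
  refine ⟨fun O n => g n (cut n O), ?_, ?_⟩
  · intro O O' n h
    have : cut n O = cut n O' := by
      funext s
      by_cases h1 : s.length = n
      · simp only [hcut, if_pos h1, h s h1]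
      · simp only [hcut, if_neg h1]
    show g n (cut n O) = g n (cut n O')
    rw [this]
  · intro O h1 h2 h3
    have hlow : ∀ n < ℓ, g n (cut n O) = E₀ n := fun n hn => by
      simp only [hg, if_pos hn]
    have hhigh : ∀ n, ℓ ≤ n → P n (cut n O) (g n (cut n O)) := fun n hn => by
      have hex : ∃ x, P n (cut n O) x := by
        obtain ⟨x', h4, h5⟩ := S.move n (V n) Z (cut n O) (by
          intro s hs hl
          simp only [hcut, if_pos hl]
          rw [h2 s hs]
          unfold Sys.plain
          subst hl
          rfl)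
        exact ⟨x', h4, h5⟩
      have : g n (cut n O) = hex.choose := by
        simp only [hg]
        rw [if_neg (by omega), dif_pos hex]
      rw [this]
      exact hex.choose_spec
    refine ⟨fun s => ?_, hlow, fun t ht => ?_⟩
    · show S.pl s.length (g s.length (cut s.length O)) s = O s
      rcases Nat.lt_or_ge s.length ℓ with h4 | h4
      · rw [hlow _ h4, h1 s h4]
        rfl
      · rw [(hhigh _ h4).1 s rfl]
        simp only [hcut, if_true]
    · show S.an (S.lv t) (g (S.lv t) (cut (S.lv t) O)) t = S.an (S.lv t) (V (S.lv t)) t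
      rcases Nat.lt_or_ge (S.lv t) ℓ with h4 | h4
      · rw [hlow _ h4, h3 _ h4]
      · exact (hhigh _ h4).2 t ht rfl

end Pool.Agent.LibAL48
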