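import Pool.Agent.LibAL48.Poly
import Pool.Agent.LibAL48.ExtDefs
import Pool.Agent.LibAL48.Sys

/-!
The system of the extensions of oracles by polynomials over a family of fields.
-/

namespace Pool.Agent.LibAL48

open Pool.Agent.LibNexp MvPolynomial

theorem pair_ne_nil {x y : List Bool} : pair x y ≠ [] := by
  intro h
  have := congrArg List.length h
  rw [length_pair] at this
  simp at this

theorem lst_injective : ∀ {l l' : List (List Bool)}, lst l = lst l' → l = l' := by
  intro l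
  induction l with
  | nil =>
    intro l' h
    cases l' with
    | nil => rfl
    | cons a l' => exact absurd h.symm pair_ne_nil
  | cons a l ih =>
    intro l' h
    cases l' with
    | nil => exact absurd h pair_ne_nil
    | cons b l' =>
      obtain ⟨h1, h2⟩ := pair_injective h
      rw [h1, ih h2]

theorem length_lst : ∀ l : List (List Bool), 2 * l.length ≤ (lst l).length
  | [] => by simp [lst]
  | a :: l => by
    have := length_lst l
    show _ ≤ (pair a (lst l)).length
    rw [length_pair, List.length_cons]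
    omega

variable {𝕂 : Fields}

theorem length_qry {s : List Bool} {n j : ℕ} {y : Fin n → 𝕂.K s} : n ≤ (qry 𝕂 s j y).length := by
  unfold qry
  rw [length_pair, length_pair]
  have := length_lst (List.ofFn fun i => 𝕂.enc s (y i))
  rw [List.length_ofFn] at this
  omega

theorem qry_inj1 {s s' : List Bool} {n n' j j' : ℕ} {y : Fin n → 𝕂.K s} {y' : Fin n' → 𝕂.K s'}
    (h : qry 𝕂 s j y = qry 𝕂 s' j' y') : s = s' ∧ n = n' ∧ j = j' := by
  unfold qry at h
  obtain ⟨h1, h2⟩ := pair_injective h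
  obtain ⟨h3, h4⟩ := pair_injective h2
  have h5 := congrArg List.length h3
  have h6 := congrArg List.length (lst_injective h4)
  rw [List.length_replicate, List.length_replicate] at h5
  rw [List.length_ofFn, List.length_ofFn] at h6
  exact ⟨h1, h6, h5⟩

theorem qry_inj2 {s : List Bool} {n j j' : ℕ} {y y' : Fin n → 𝕂.K s}
    (h : qry 𝕂 s j y = qry 𝕂 s j' y') : y = y' := by
  unfold qry at h
  obtain ⟨-, h2⟩ := pair_injective h
  obtain ⟨-, h4⟩ := pair_injective h2
  have h5 := List.ofFn_injective (lst_injective h4)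
  funext i
  exact 𝕂.inj s (congrFun h5 i)

/-- A query for a value of the polynomial with `n` variables over the field `s`. -/
def IsQ (𝕂 : Fields) (o : List Bool × ℕ) (t : List Bool) : Prop :=
  ∃ (j : ℕ) (y : Fin o.2 → 𝕂.K o.1), t = true :: qry 𝕂 o.1 j y

theorem IsQ.unique {o o' : List Bool × ℕ} {t : List Bool} (h : IsQ 𝕂 o t) (h' : IsQ 𝕂 o' t) :
    o = o' := by
  obtain ⟨j, y, rfl⟩ := h
  obtain ⟨j', y', h2⟩ := h'
  rw [List.cons.injEq] at h2
  obtain ⟨h3, h4, -⟩ := qry_inj1 h2.2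
  exact Prod.ext h3 h4

/-- The point asked for. -/
noncomputable def qpt {o : List Bool × ℕ} {t : List Bool} (h : IsQ 𝕂 o t) : Fin o.2 → 𝕂.K o.1 :=
  h.choose_spec.choose

theorem qpt_eq {o : List Bool × ℕ} {j : ℕ} {y : Fin o.2 → 𝕂.K o.1}
    (h : IsQ 𝕂 o (true :: qry 𝕂 o.1 j y)) : qpt h = y := by
  have h1 := h.choose_spec.choose_spec
  rw [List.cons.injEq] at h1
  exact (qry_inj2 h1.2).symm

open Classical in
/-- The field and the number of variables of a query. -/
noncomputable def kind (𝕂 : Fields) (t : List Bool) : Option (List Bool × ℕ) :=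
  if h : ∃ o, IsQ 𝕂 o t then some h.choose else none

theorem kind_some {o : List Bool × ℕ} {t : List Bool} : kind 𝕂 t = some o ↔ IsQ 𝕂 o t := by
  unfold kind
  constructor
  · intro h
    split_ifs at h with h1
    rw [Option.some.injEq] at h
    rw [← h]
    exact h1.choose_spec
  · intro h
    rw [dif_pos ⟨o, h⟩, Option.some.injEq]
    exact (Exists.choose_spec (⟨o, h⟩ : ∃ o, IsQ 𝕂 o t)).unique h

theorem kind_false (u : List Bool) : kind 𝕂 (false :: u) = none := by
  cases h : kind 𝕂 (false :: u) with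
  | none => rfl
  | some o =>
    obtain ⟨j, y, h2⟩ := kind_some.1 h
    simp at h2

/-- The level of a query. -/
noncomputable def lev (𝕂 : Fields) (t : List Bool) : ℕ :=
  match kind 𝕂 t with
  | none => t.length - 1
  | some o => o.2

theorem lev_none {t : List Bool} (h : kind 𝕂 t = none) : lev 𝕂 t = t.length - 1 := by
  unfold lev
  rw [h]

theorem lev_some {o : List Bool × ℕ} {t : List Bool} (h : kind 𝕂 t = some o) : lev 𝕂 t = o.2 := by
  unfold lev
  rw [h]

theorem lev_le (t : List Bool) : lev 𝕂 t ≤ t.length := by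
  cases h : kind 𝕂 t with
  | none =>
    rw [lev_none h]
    omega
  | some o =>
    rw [lev_some h]
    obtain ⟨j, y, rfl⟩ := kind_some.1 h
    have := length_qry (𝕂 := 𝕂) (s := o.1) (j := j) (y := y)
    rw [List.length_cons]
    omega

/-- The points asked for. -/
def pts (𝕂 : Fields) (Z : Finset (List Bool)) (s : List Bool) (n : ℕ) : Set (Fin n → 𝕂.K s) :=
  {y | ∃ j : ℕ, true :: qry 𝕂 s j y ∈ Z}

open Classical in
/-- The strings fixed by the queries of one kind. -/
noncomputable def badOf (𝕂 : Fields) (Z : Finset (List Bool)) :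
    Option (List Bool × ℕ) → Finset (List Bool)
  | none => (Z.filter fun t => kind 𝕂 t = none).image List.tail
  | some o => (Finset.univ.filter fun w : Fin o.2 → Bool => w ∈ Bad (pts 𝕂 Z o.1 o.2)).image List.ofFn

open Classical in
/-- The strings fixed by some queries. -/
noncomputable def bad (𝕂 : Fields) (Z : Finset (List Bool)) : Finset (List Bool) :=
  (Z.image (kind 𝕂)).biUnion (badOf 𝕂 Z)

theorem card_badOf (Z : Finset (List Bool)) [DecidableEq (Option (List Bool × ℕ))]
    (o : Option (List Bool × ℕ)) :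
    (badOf 𝕂 Z o).card ≤ (Z.filter fun t => kind 𝕂 t = o).card := by
  classical
  cases o with
  | none =>
    refine le_trans Finset.card_image_le (le_of_eq ?_)
    congr 1
    ext t
    simp
  | some o =>
    refine le_trans Finset.card_image_le ?_
    -- the points asked for, as a finite set
    have hkf : ∀ t ∈ Z.filter fun t => kind 𝕂 t = some o, IsQ 𝕂 o t := fun t ht =>
      kind_some.1 (Finset.mem_filter.1 ht).2
    set Y : Finset (Fin o.2 → 𝕂.K o.1) := (Z.filter fun t => kind 𝕂 t = some o).attach.image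
      fun t => qpt (hkf t.1 t.2) with hY
    have hYpts : ∀ y ∈ pts 𝕂 Z o.1 o.2, y ∈ Y := by
      rintro y ⟨j, hj⟩
      have hk : kind 𝕂 (true :: qry 𝕂 o.1 j y) = some o := kind_some.2 ⟨j, y, rfl⟩
      have hmem : true :: qry 𝕂 o.1 j y ∈ Z.filter fun t => kind 𝕂 t = some o :=
        Finset.mem_filter.2 ⟨hj, hk⟩
      rw [hY, Finset.mem_image]
      exact ⟨⟨_, hmem⟩, Finset.mem_attach _ _, qpt_eq (hkf _ hmem)⟩
    have h1 := card_bad_le Y (Finset.univ.filter fun w : Fin o.2 → Bool =>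
      w ∈ Bad (pts 𝕂 Z o.1 o.2)) fun w hw =>
        Bad.mono (fun y hy => Finset.mem_coe.2 (hYpts y hy)) (Finset.mem_filter.1 hw).2
    refine le_trans h1 (le_trans Finset.card_image_le (le_of_eq ?_))
    rw [Finset.card_attach]

theorem card_bad (Z : Finset (List Bool)) : (bad 𝕂 Z).card ≤ Z.card := by
  classical
  unfold bad
  refine le_trans Finset.card_biUnion_le ?_
  rw [Finset.card_eq_sum_card_image (kind 𝕂) Z]
  refine le_trans (Finset.sum_le_sum fun o _ => card_badOf Z o) (le_of_eq ?_)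
  refine Finset.sum_congr ?_ fun o _ => ?_
  · congr 1
  · congr 1

theorem pts_eq_empty {Z : Finset (List Bool)} {s : List Bool} {n : ℕ}
    (h : ∀ t ∈ Z, kind 𝕂 t ≠ some (s, n)) : pts 𝕂 Z s n = ∅ := by
  rw [Set.eq_empty_iff_forall_notMem]
  rintro y ⟨j, hj⟩
  exact h _ hj (kind_some.2 ⟨j, y, rfl⟩)

theorem mem_bad_of_none {Z : Finset (List Bool)} {t : List Bool} (ht : t ∈ Z)
    (h : kind 𝕂 t = none) : t.tail ∈ bad 𝕂 Z := by
  classical
  unfold bad
  rw [Finset.mem_biUnion]
  refine ⟨none, Finset.mem_image.2 ⟨t, ht, h⟩, ?_⟩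
  exact Finset.mem_image.2 ⟨t, Finset.mem_filter.2 ⟨ht, h⟩, rfl⟩

theorem mem_bad_of_some {Z : Finset (List Bool)} {s : List Bool} {n : ℕ} {w : Fin n → Bool}
    (hw : w ∈ Bad (pts 𝕂 Z s n)) : List.ofFn w ∈ bad 𝕂 Z := by
  classical
  by_cases h : ∃ t ∈ Z, kind 𝕂 t = some (s, n)
  · obtain ⟨t, ht, hk⟩ := h
    unfold bad
    rw [Finset.mem_biUnion]
    refine ⟨some (s, n), Finset.mem_image.2 ⟨t, ht, hk⟩, ?_⟩
    exact Finset.mem_image.2 ⟨w, Finset.mem_filter.2 ⟨Finset.mem_univ _, hw⟩, rfl⟩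
  · push Not at h
    exfalso
    rw [pts_eq_empty h] at hw
    have := card_bad_le (K := 𝕂.K s) (∅ : Finset (Fin n → 𝕂.K s)) {w} (by
      intro v hv
      rw [Finset.mem_singleton] at hv
      rw [hv]
      simpa using hw)
    simp at this

theorem of_mem_bad {Z : Finset (List Bool)} {u : List Bool} (h : u ∈ bad 𝕂 Z) :
    (∃ t ∈ Z, kind 𝕂 t = none ∧ t.tail = u) ∨
      ∃ (s : List Bool) (n : ℕ) (w : Fin n → Bool), (∃ t ∈ Z, kind 𝕂 t = some (s, n)) ∧
        w ∈ Bad (pts 𝕂 Z s n) ∧ List.ofFn w = u := by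
  classical
  unfold bad at h
  rw [Finset.mem_biUnion] at h
  obtain ⟨o, ho, hu⟩ := h
  rw [Finset.mem_image] at ho
  obtain ⟨t, ht, hk⟩ := ho
  cases o with
  | none =>
    obtain ⟨t', ht', hu'⟩ := Finset.mem_image.1 hu
    rw [Finset.mem_filter] at ht'
    exact Or.inl ⟨t', ht'.1, ht'.2, hu'⟩
  | some o =>
    obtain ⟨w, hw, hu'⟩ := Finset.mem_image.1 hu
    rw [Finset.mem_filter] at hw
    exact Or.inr ⟨o.1, o.2, w, ⟨t, ht, hk⟩, hw.2, hu'⟩

theorem bad_lv (Z : Finset (List Bool)) : ∀ u ∈ bad 𝕂 Z, ∃ t ∈ Z, lev 𝕂 t = u.length := by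
  intro u hu
  rcases of_mem_bad hu with ⟨t, ht, hk, rfl⟩ | ⟨s, n, w, ⟨t, ht, hk⟩, -, rfl⟩
  · exact ⟨t, ht, by rw [lev_none hk, List.length_tail]⟩
  · exact ⟨t, ht, by rw [lev_some hk, List.length_ofFn]⟩

theorem bad_mono (Z Z' : Finset (List Bool)) (h : Z ⊆ Z') : bad 𝕂 Z ⊆ bad 𝕂 Z' := by
  intro u hu
  rcases of_mem_bad hu with ⟨t, ht, hk, rfl⟩ | ⟨s, n, w, -, hw, rfl⟩
  · exact mem_bad_of_none (h ht) hk
  · refine mem_bad_of_some (Bad.mono ?_ hw)
    rintro y ⟨j, hj⟩
    exact ⟨j, h hj⟩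

/-- The worlds at length `n`: a plain oracle and its extensions. -/
abbrev XW (𝕂 : Fields) (n : ℕ) : Type :=
  {x : (List Bool → Bool) × (∀ s, MvPolynomial (Fin n) (𝕂.K s)) //
    ∀ s, (∀ i, (x.2 s).degreeOf i ≤ 2) ∧
      ∀ w : Fin n → Bool, eval (cub (𝕂.K s) w) (x.2 s) = if x.1 (List.ofFn w) then 1 else 0}

open Classical in
/-- The answers. -/
noncomputable def ans (𝕂 : Fields) (n : ℕ) (x : XW 𝕂 n) : List Bool → Bool
  | [] => false
  | false :: u => x.1.1 u
  | true :: u => decide (∃ (s : List Bool) (j : ℕ) (y : Fin n → 𝕂.K s), u = qry 𝕂 s j y ∧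
      (pair (𝕂.enc s (eval y (x.1.2 s))) [])[j]? = some true)

theorem exists_ofFn {n : ℕ} {s : List Bool} (h : s.length = n) : ∃ w : Fin n → Bool,
    List.ofFn w = s := by
  subst h
  exact ⟨s.get, List.ofFn_get s⟩

theorem exists_move (n : ℕ) (x : XW 𝕂 n) (Z : Finset (List Bool)) (f : List Bool → Bool)
    (hf : ∀ s ∈ bad 𝕂 Z, s.length = n → f s = x.1.1 s) :
    ∃ x' : XW 𝕂 n, (∀ s : List Bool, s.length = n → x'.1.1 s = f s) ∧
      ∀ t ∈ Z, lev 𝕂 t = n → ans 𝕂 n x' t = ans 𝕂 n x t := by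
  have h1 : ∀ s, ∃ P' : MvPolynomial (Fin n) (𝕂.K s), (∀ i, P'.degreeOf i ≤ 2) ∧
      (∀ v, eval (cub (𝕂.K s) v) P' = if f (List.ofFn v) then 1 else 0) ∧
      ∀ y ∈ pts 𝕂 Z s n, eval y P' = eval y (x.1.2 s) := fun s =>
    exists_change (f₀ := fun v => x.1.1 (List.ofFn v)) (x.2 s).1 (x.2 s).2 fun v hv =>
      hf _ (mem_bad_of_some hv) (by rw [List.length_ofFn])
  choose P' h2 h3 h4 using h1
  refine ⟨⟨(f, P'), fun s => ⟨h2 s, h3 s⟩⟩, fun _ _ => rfl, fun t ht hl => ?_⟩
  match t, ht, hl with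
  | [], _, _ => rfl
  | false :: u, ht, hl =>
    rw [lev_none (kind_false u), List.length_cons] at hl
    exact hf u (mem_bad_of_none ht (kind_false u)) (by omega)
  | true :: u, ht, hl =>
    refine decide_eq_decide.2 ?_
    constructor
    · rintro ⟨s, j, y, rfl, h⟩
      exact ⟨s, j, y, rfl, by rwa [← h4 s y ⟨j, ht⟩]⟩
    · rintro ⟨s, j, y, rfl, h⟩
      exact ⟨s, j, y, rfl, by
        show (pair (𝕂.enc s (eval y (P' s))) [])[j]? = some true
        rwa [h4 s y ⟨j, ht⟩]⟩

/-- The system of the extensions. -/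
noncomputable def sys (𝕂 : Fields) : Sys where
  X := XW 𝕂
  pl _ x := x.1.1
  an := ans 𝕂
  lv := lev 𝕂
  lv_le := lev_le
  bad := bad 𝕂
  card_bad := card_bad
  bad_lv := bad_lv
  bad_mono := bad_mono
  ex n f := by
    have x₀ : XW 𝕂 n := ⟨(fun _ => false, fun _ => 0), fun s => ⟨fun i => by simp, fun w => by simp⟩⟩
    obtain ⟨x', h1, -⟩ := exists_move n x₀ ∅ f (fun s hs => by
      have := card_bad (𝕂 := 𝕂) ∅
      rw [Finset.card_empty, Nat.le_zero, Finset.card_eq_zero] at this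
      rw [this] at hs
      simp at hs)
    exact ⟨x', h1⟩
  move := exists_move

/-- A world of the system is an oracle with an extension. -/
theorem world_spec (E : (sys 𝕂).W) :
    IsExt 𝕂 ((sys 𝕂).plain E) (fun s n => (E n).1.2 s) ∧
      (sys 𝕂).rich E = ext 𝕂 ((sys 𝕂).plain E) (fun s n => (E n).1.2 s) := by
  constructor
  · intro s n
    refine ⟨((E n).2 s).1, fun w => ?_⟩
    have h1 := ((E n).2 s).2 w
    unfold cub at h1
    rw [h1]
    have h2 : (sys 𝕂).plain E (List.ofFn w) = (E n).1.1 (List.ofFn w) := by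
      unfold Sys.plain
      show (E (List.ofFn w).length).1.1 (List.ofFn w) = _
      rw [List.length_ofFn]
    rw [h2]
  · funext t
    match t with
    | [] => rfl
    | false :: u =>
      show ans 𝕂 (lev 𝕂 (false :: u)) (E (lev 𝕂 (false :: u))) (false :: u) = _
      have h1 : lev 𝕂 (false :: u) = u.length := by
        rw [lev_none (kind_false u), List.length_cons, Nat.add_sub_cancel]
      rw [h1]
      rfl
    | true :: u =>
      refine decide_eq_decide.2 ?_
      constructor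
      · rintro ⟨s, j, y, h1, h2⟩
        exact ⟨s, _, j, y, h1, h2⟩
      · rintro ⟨s, n, j, y, h1, h2⟩
        have h3 : lev 𝕂 (true :: u) = n := by
          rw [h1]
          exact lev_some (o := (s, n)) (kind_some.2 ⟨j, y, rfl⟩)
        subst h3
        exact ⟨s, j, y, h1, h2⟩

end Pool.Agent.LibAL48
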