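import Pool.Agent.LibCL48.Defs

/-!
The relation between time and advice for complementing languages relative to one oracle, relative
to another oracle.
-/

namespace Pool.Agent.LibAL48

open Pool.Agent.LibNexp
open Pool.Agent.LibTA48 (NTLang)
open Pool.Agent.LibCL48 (Adv)

/-- The complements of all languages in nondeterministic time `2 ^ O(n ^ a)` with oracle `X` are in
nondeterministic time `2 ^ O(n ^ b)` with oracle `Y` and advice in `Adv c`. -/
def Enough (X Y : List Bool → Bool) (a b c : ℝ) : Prop :=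
  ∀ L ∈ NTLang X a, Lᶜ ∈ WithAdvice (NTLang Y b) (Adv c)

/-- The feasible triples of exponents, with an arbitrarily small amount to spare. -/
def Feas (X Y : List Bool → Bool) (a b c : ℝ) : Prop :=
  0 < a ∧ a < b ∧ 0 ≤ c ∧ c < 1 ∧ ∃ a' b' c' : ℝ, a < a' ∧ b' < b ∧ 0 ≤ c' ∧
    (c' < c ∨ c' = 0 ∧ c = 0) ∧ Enough X Y a' b' c'

end Pool.Agent.LibAL48
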