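import Pool.Agent.LibCL48.Pos
import Pool.Agent.LibAL48.Defs

/-!
Programs with an oracle can be run with a richer oracle.
-/

namespace Pool.Agent.LibAL48

open Function Pool.Agent.LibNexp
open Pool.Agent.LibTA48 (NTLang TB ntLang_of_tb)
open Pool.Agent.LibCL48 (Adv)

/-- The program asking the query `false :: u` instead of `u`. -/
def tr : Prog → Prog
  | .push r b => .push r b
  | .pop r b => .pop r b
  | .empty r => .empty r
  | .query r b => .seq (.push r false) (.seq (.query r b) (.pop r false))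
  | .seq p q => .seq (tr p) (tr q)
  | .alt p q => .alt (tr p) (tr q)
  | .star p => .star (tr p)

theorem Iter.trans' {R R' : ℕ → State → State → Prop} {k : ℕ}
    (h : ∀ t σ σ', R t σ σ' → ∃ t' ≤ k * t, R' t' σ σ') {t : ℕ} {σ σ' : State}
    (hI : Iter R t σ σ') : ∃ t' ≤ k * t, Iter R' t' σ σ' := by
  induction hI with
  | nil σ => exact ⟨0, by simp, Iter.nil σ⟩
  | cons h1 _ ih =>
    obtain ⟨t1, h2, h3⟩ := h _ _ _ h1
    obtain ⟨t2, h4, h5⟩ := ih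
    refine ⟨t1 + t2, ?_, Iter.cons h3 h5⟩
    rw [Nat.mul_add]
    omega

theorem Iter.sound' {R R' : ℕ → State → State → Prop}
    (h : ∀ t σ σ', R t σ σ' → ∃ t', R' t' σ σ') {t : ℕ} {σ σ' : State}
    (hI : Iter R t σ σ') : ∃ t', Iter R' t' σ σ' := by
  induction hI with
  | nil σ => exact ⟨0, Iter.nil σ⟩
  | cons h1 _ ih =>
    obtain ⟨t1, h3⟩ := h _ _ _ h1
    obtain ⟨t2, h5⟩ := ih
    exact ⟨t1 + t2, Iter.cons h3 h5⟩

variable {O Ω : List Bool → Bool}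

theorem run_tr (h : ∀ u, Ω (false :: u) = O u) : ∀ (p : Prog) (t : ℕ) (σ σ' : State),
    Run O p t σ σ' → ∃ t' ≤ 3 * t, Run Ω (tr p) t' σ σ'
  | .push r b, t, σ, σ', hr => ⟨t, by omega, hr⟩
  | .pop r b, t, σ, σ', hr => ⟨t, by omega, hr⟩
  | .empty r, t, σ, σ', hr => ⟨t, by omega, hr⟩
  | .query r b, t, σ, σ', ⟨h1, h2, h3⟩ => by
    subst h1 h3
    refine ⟨1 + (1 + 1), by omega, 1, 1 + 1, update σ' r (false :: σ' r), rfl, ⟨rfl, rfl⟩, 1, 1,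
      update σ' r (false :: σ' r), rfl, ⟨rfl, ?_, rfl⟩, rfl, σ' r, ?_, ?_⟩
    · rw [update_self, h, h2]
    · rw [update_self]
    · rw [update_idem, update_eq_self]
  | .seq p q, t, σ, σ', ⟨t1, t2, τ, h1, h2, h3⟩ => by
    obtain ⟨t1', k1, k2⟩ := run_tr h p _ _ _ h2
    obtain ⟨t2', k3, k4⟩ := run_tr h q _ _ _ h3
    exact ⟨t1' + t2', by omega, t1', t2', τ, rfl, k2, k4⟩
  | .alt p q, t, σ, σ', hr => by
    rcases hr with h1 | h1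
    · obtain ⟨t1', k1, k2⟩ := run_tr h p _ _ _ h1
      exact ⟨t1', k1, Or.inl k2⟩
    · obtain ⟨t1', k1, k2⟩ := run_tr h q _ _ _ h1
      exact ⟨t1', k1, Or.inr k2⟩
  | .star p, t, σ, σ', hr => Iter.trans' (fun t σ σ' => run_tr h p t σ σ') hr

theorem tr_run (h : ∀ u, Ω (false :: u) = O u) : ∀ (p : Prog) (t : ℕ) (σ σ' : State),
    Run Ω (tr p) t σ σ' → ∃ t', Run O p t' σ σ'
  | .push r b, t, σ, σ', hr => ⟨t, hr⟩
  | .pop r b, t, σ, σ', hr => ⟨t, hr⟩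
  | .empty r, t, σ, σ', hr => ⟨t, hr⟩
  | .query r b, t, σ, σ', ⟨t1, t2, τ, h1, ⟨h2, h3⟩, t3, t4, τ', h4, ⟨h5, h6, h7⟩, h8, l, h9, h10⟩ => by
    subst h3 h7
    rw [update_self, List.cons.injEq] at h9
    obtain ⟨-, rfl⟩ := h9
    rw [update_self, h] at h6
    rw [update_idem, update_eq_self] at h10
    exact ⟨1, rfl, h6, h10⟩
  | .seq p q, t, σ, σ', ⟨t1, t2, τ, h1, h2, h3⟩ => by
    obtain ⟨t1', k2⟩ := tr_run h p _ _ _ h2
    obtain ⟨t2', k4⟩ := tr_run h q _ _ _ h3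
    exact ⟨t1' + t2', t1', t2', τ, rfl, k2, k4⟩
  | .alt p q, t, σ, σ', hr => by
    rcases hr with h1 | h1
    · obtain ⟨t1', k2⟩ := tr_run h p _ _ _ h1
      exact ⟨t1', Or.inl k2⟩
    · obtain ⟨t1', k2⟩ := tr_run h q _ _ _ h1
      exact ⟨t1', Or.inr k2⟩
  | .star p, t, σ, σ', hr => Iter.sound' (fun t σ σ' => tr_run h p t σ σ') hr

theorem ntime_tr (h : ∀ u, Ω (false :: u) = O u) {k : ℕ} {T : ℕ → ℕ}
    {R : (Fin k → List Bool) → Prop} (hR : NTime O T R) : NTime Ω (fun n => 3 * T n) R := by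
  obtain ⟨p, hp⟩ := hR
  refine ⟨tr p, fun e => ⟨fun t σ' hr => ?_, fun he => ?_⟩⟩
  · obtain ⟨t', ht'⟩ := tr_run h p _ _ _ hr
    exact (hp e).1 _ _ ht'
  · obtain ⟨t, σ', ht, hr⟩ := (hp e).2 he
    obtain ⟨t', h1, h2⟩ := run_tr h p _ _ _ hr
    exact ⟨t', σ', le_trans h1 (Nat.mul_le_mul_left 3 ht), h2⟩

theorem ntLang_sub (h : ∀ u, Ω (false :: u) = O u) {l : ℝ} {L : Lang} (hL : L ∈ NTLang O l) :
    L ∈ NTLang Ω l := by
  obtain ⟨c, hc⟩ := hL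
  refine ntLang_of_tb ?_ (ntime_tr h hc)
  refine ⟨c + 2, fun n => ?_⟩
  have h1 : 3 * 2 ^ (c * ⌈(n : ℝ) ^ l⌉₊ + c) ≤ 2 ^ 2 * 2 ^ (c * ⌈(n : ℝ) ^ l⌉₊ + c) :=
    Nat.mul_le_mul_right _ (by norm_num)
  rw [← pow_add] at h1
  refine le_trans h1 (Nat.pow_le_pow_right (by norm_num) ?_)
  nlinarith [Nat.zero_le (⌈(n : ℝ) ^ l⌉₊)]

theorem Feas.anti {X X' Y Y' : List Bool → Bool} (hX : ∀ l : ℝ, NTLang X' l ⊆ NTLang X l)
    (hY : ∀ l : ℝ, NTLang Y l ⊆ NTLang Y' l) {a b c : ℝ} (h : Feas X Y a b c) :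
    Feas X' Y' a b c := by
  obtain ⟨h1, h2, h3, h4, a', b', c', h5, h6, h7, h8, h9⟩ := h
  refine ⟨h1, h2, h3, h4, a', b', c', h5, h6, h7, h8, fun L hL => ?_⟩
  obtain ⟨B, hB, f, hf, heq⟩ := h9 L (hX _ hL)
  exact ⟨B, hY _ hB, f, hf, heq⟩

end Pool.Agent.LibAL48
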