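import Pool.Agent.LibAL48.Sys

/-!
Oracles which code the complements of nondeterministic languages of the richer oracle, with test
languages for many exponents: the completion of a finite part.
-/

namespace Pool.Agent.LibAL48

open Function Pool.Agent.LibNexp
open Pool.Agent.LibSpec4 (dg dg_injective length_dg ask ask_injective xs length_xs xs_injective)
open Pool.Agent.LibTA48 (cd cd_injective length_cd length_lt_cd)
open Pool.Agent.LibCL48 (Data ts Tst ts_injective length_ts ts_ne_cd IsCode IsTs)

/-- Worlds coding all complements correctly in the plain oracle. -/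
structure Good (S : Sys) (D : Data) (e : ℕ → ℕ → ℕ) (ρ : ℕ → ℕ → ℕ) (E : S.W) : Prop where
  sound : ∀ N x w, w.length = D.wl N x.length →
    S.plain E (cd N x (dg (D.kl N x.length) (ρ N x.length)) w) = true → ¬ AccN S D E N x
  complete : ∀ N x, ¬ AccN S D E N x → ∃ w : List Bool, w.length = D.wl N x.length ∧
    S.plain E (cd N x (dg (D.kl N x.length) (ρ N x.length)) w) = true
  codes : ∀ s, S.plain E (false :: s) = true → IsCode D (false :: s)
  tests : ∀ s, S.plain E (true :: s) = true → IsTs e (true :: s)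

/-- The setting of one stage: the world built so far, its keys, the level, the small facts. -/
structure Ctx (S : Sys) (D : Data) (e : ℕ → ℕ → ℕ) where
  E₀ : S.W
  ρ₀ : ℕ → ℕ → ℕ
  good : Good S D e ρ₀ E₀
  i : ℕ
  n : ℕ
  hn : 1 ≤ n
  Sm : ℕ → ℕ → Prop

variable {S : Sys} {D : Data} {e : ℕ → ℕ → ℕ} (c : Ctx S D e)

/-- The level. -/
def Ctx.ℓ : ℕ := c.i + 2 * c.n + 2 ^ e c.i c.n + 4

/-- The strings whose values are fixed: the short ones and the codes of the facts decided by
the short ones. -/
def Ctx.Fx (s : List Bool) : Prop :=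
  s.length < c.ℓ ∨ ∃ N x r w, s = cd N x r w ∧ D.q N x.length < c.ℓ

open Classical in
/-- The keys at depth `θ` when the census is `J`. -/
noncomputable def Ctx.κ (base : ℕ → ℕ → ℕ) (θ J N m : ℕ) : ℕ :=
  if D.q N m < c.ℓ then c.ρ₀ N m else if c.Sm N m ∨ θ < D.wl N m then 0 else J - base N m

/-- Admissible finite parts: `F` is the set of frozen queries, `V` gives their answers, `J` is a
bound for the census, `Tab` is the set of accepted inputs of small facts. -/
structure Fz (base : ℕ → ℕ → ℕ) (θ : ℕ) (F : Finset (List Bool)) (V : S.W) (J : ℕ)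
    (Tab : Set (ℕ × List Bool)) : Prop where
  len : ∀ s ∈ F, s.length ≤ θ
  low : ∀ n < c.ℓ, V n = c.E₀ n
  fixed : ∀ s ∈ S.bad F, c.Fx s → S.plain V s = S.plain c.E₀ s
  cens : ∀ j, j < 2 ^ (c.n - 1) → ∀ w, ts c.i (xs c.n j) w ∈ S.bad F →
    S.plain V (ts c.i (xs c.n j) w) = true → j < J
  codes : ∀ s, false :: s ∈ S.bad F → S.plain V (false :: s) = true → IsCode D (false :: s)
  tests : ∀ s, true :: s ∈ S.bad F → S.plain V (true :: s) = true → IsTs e (true :: s)
  fresh : ∀ N x w j, cd N x (dg (D.kl N x.length) j) w ∈ S.bad F →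
    S.plain V (cd N x (dg (D.kl N x.length) j) w) = true → w.length = D.wl N x.length →
    j < 2 ^ D.kl N x.length → c.ℓ ≤ D.q N x.length → ¬ c.Sm N x.length → j < J - base N x.length
  small : ∀ N x w, cd N x (dg (D.kl N x.length) 0) w ∈ S.bad F →
    S.plain V (cd N x (dg (D.kl N x.length) 0) w) = true → w.length = D.wl N x.length →
    c.ℓ ≤ D.q N x.length → c.Sm N x.length → (N, x) ∉ Tab
  acc : ∀ N x, (N, x) ∈ Tab → ∀ E' : S.W, (∀ t ∈ F, S.rich E' t = S.rich V t) → AccN S D E' N x

/-- Worlds continuing a finite part, legal up to depth `θ`, with census at most `J`. -/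
structure Leg (base : ℕ → ℕ → ℕ) (θ : ℕ) (F : Finset (List Bool)) (V : S.W) (J : ℕ)
    (E : S.W) : Prop where
  low : ∀ n < c.ℓ, E n = c.E₀ n
  fixed : ∀ s, c.Fx s → S.plain E s = S.plain c.E₀ s
  ext : ∀ t ∈ F, S.rich E t = S.rich V t
  extb : ∀ s ∈ S.bad F, S.plain E s = S.plain V s
  cens : ∀ j, j < 2 ^ (c.n - 1) → ∀ w, S.plain E (ts c.i (xs c.n j) w) = true → j < J
  codes : ∀ s, S.plain E (false :: s) = true → IsCode D (false :: s)
  tests : ∀ s, S.plain E (true :: s) = true → IsTs e (true :: s)
  sound : ∀ N x w, w.length = D.wl N x.length → D.wl N x.length ≤ θ →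
    S.plain E (cd N x (dg (D.kl N x.length) (c.κ base θ J N x.length)) w) = true →
    ¬ AccN S D E N x
  fresh : ∀ N x w j, w.length = D.wl N x.length → D.wl N x.length ≤ θ → c.ℓ ≤ D.q N x.length →
    ¬ c.Sm N x.length → j < 2 ^ D.kl N x.length → J - base N x.length < j →
    S.plain E (cd N x (dg (D.kl N x.length) j) w) = false

variable {c}

theorem κ_eq {base : ℕ → ℕ → ℕ} {θ θ' J N m : ℕ} (h : D.wl N m ≤ θ) (h' : D.wl N m ≤ θ') :
    c.κ base θ J N m = c.κ base θ' J N m := by
  classical
  have h1 : (c.Sm N m ∨ θ < D.wl N m) ↔ (c.Sm N m ∨ θ' < D.wl N m) := by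
    constructor
    · rintro (h1 | h1)
      · exact Or.inl h1
      · omega
    · rintro (h1 | h1)
      · exact Or.inl h1
      · omega
  unfold Ctx.κ
  exact if_congr Iff.rfl rfl (if_congr h1 rfl rfl)

theorem Leg.mono {base : ℕ → ℕ → ℕ} {θ θ' : ℕ} {F F' : Finset (List Bool)} {V V' : S.W}
    {J : ℕ} {E : S.W} (h : Leg c base θ F V J E) (hθ : θ' ≤ θ) (hF : F' ⊆ F)
    (hv : ∀ t ∈ F', S.rich V' t = S.rich V t) (hv' : ∀ s ∈ S.bad F', S.plain V' s = S.plain V s) :
    Leg c base θ' F' V' J E where
  low := h.low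
  fixed := h.fixed
  ext s hs := by rw [h.ext s (hF hs), hv s hs]
  extb s hs := by rw [h.extb s (S.bad_mono _ _ hF hs), hv' s hs]
  cens := h.cens
  codes := h.codes
  tests := h.tests
  sound N x w hw hθ' hO := by
    rw [κ_eq hθ' (le_trans hθ' hθ)] at hO
    exact h.sound N x w hw (le_trans hθ' hθ) hO
  fresh N x w j hw hθ' := h.fresh N x w j hw (le_trans hθ' hθ)

theorem Leg.base {base base' : ℕ → ℕ → ℕ} {θ : ℕ} {F : Finset (List Bool)} {V : S.W}
    {J : ℕ} {E : S.W} (h : Leg c base θ F V J E)
    (hb : ∀ N m, D.wl N m ≤ θ → base' N m = base N m) : Leg c base' θ F V J E where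
  low := h.low
  fixed := h.fixed
  ext := h.ext
  extb := h.extb
  cens := h.cens
  codes := h.codes
  tests := h.tests
  sound N x w hw hθ' hO := by
    have : c.κ base' θ J N x.length = c.κ base θ J N x.length := by
      unfold Ctx.κ
      rw [hb _ _ hθ']
    rw [this] at hO
    exact h.sound N x w hw hθ' hO
  fresh N x w j hw hθ' h1 h2 h3 h4 := h.fresh N x w j hw hθ' h1 h2 h3 (by rwa [hb _ _ hθ'] at h4)

theorem Fx_of_short {s : List Bool} (h : s.length < c.ℓ) : c.Fx s := Or.inl h

theorem fx_cd {N : ℕ} {x r w : List Bool} (h : D.q N x.length < c.ℓ) : c.Fx (cd N x r w) :=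
  Or.inr ⟨N, x, r, w, rfl, h⟩

theorem not_fx_cd {N : ℕ} {x r w : List Bool} (hw : w.length = D.wl N x.length)
    (h : c.ℓ ≤ D.q N x.length) : ¬ c.Fx (cd N x r w) := by
  rintro (h1 | ⟨N', x', r', w', h1, h2⟩)
  · have := length_lt_cd N x r w
    have := D.q_lt_wl N x.length
    omega
  · obtain ⟨rfl, rfl, -, -⟩ := cd_injective h1
    omega

theorem length_ts_lev {j : ℕ} {w : List Bool} (hw : w.length = 2 ^ e c.i c.n) :
    (ts c.i (xs c.n j) w).length = c.ℓ := by
  rw [length_ts, length_xs c.hn, hw]
  rfl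

theorem not_fx_ts {j : ℕ} {w : List Bool} (hw : w.length = 2 ^ e c.i c.n) :
    ¬ c.Fx (ts c.i (xs c.n j) w) := by
  rintro (h1 | ⟨N', x', r', w', h1, h2⟩)
  · rw [length_ts_lev hw] at h1
    exact lt_irrefl _ h1
  · exact ts_ne_cd h1

/-- The completion of an admissible finite part. -/
theorem build {base : ℕ → ℕ → ℕ} {θ : ℕ} {F : Finset (List Bool)} {V : S.W} {J : ℕ}
    {Tab : Set (ℕ × List Bool)} (hF : Fz c base θ F V J Tab) (hJ : J ≤ 2 ^ (c.n - 1))
    (hstab : ∀ N x, c.Sm N x.length → c.ℓ ≤ D.q N x.length → D.wl N x.length ≤ θ →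
      ∃ θ' < D.wl N x.length, ∀ E, Leg c base θ' F V J E → AccN S D E N x → (N, x) ∈ Tab)
    (hcap : ∀ N m, c.ℓ ≤ D.q N m → ¬ c.Sm N m → D.wl N m ≤ θ → J - base N m < 2 ^ D.kl N m)
    (hcard : F.card < 2 ^ (2 ^ e c.i c.n)) :
    ∃ E, Leg c base θ F V J E ∧ Good S D e (c.κ base θ J) E ∧
      ∀ j < J, xs c.n j ∈ Tst c.i (S.plain E) := by
  classical
  have hBc : (S.bad F).card < 2 ^ (2 ^ e c.i c.n) := lt_of_le_of_lt (S.card_bad F) hcard
  have hBl : ∀ s ∈ S.bad F, s.length ≤ θ := bad_len hF.len
  set B := S.bad F with hB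
  obtain ⟨G, hG1, hG2⟩ := exists_glue S c.ℓ c.E₀ V F
  -- the witnesses of the test strings
  have hW : ∀ j, ∃ w : List Bool, w.length = 2 ^ e c.i c.n ∧ ts c.i (xs c.n j) w ∉ B := by
    intro j
    by_contra hcon
    push Not at hcon
    have hc := Finset.card_le_card_of_injOn (s := strs (2 ^ e c.i c.n)) (t := B)
      (fun w => ts c.i (xs c.n j) w) (fun w hw => hcon w (mem_strs.1 hw))
      (fun w _ w' _ h => (ts_injective h).2.2)
    rw [card_strs] at hc
    omega
  choose W hW1 hW2 using hW
  set P : List Bool → Bool := fun s => if c.Fx s then S.plain c.E₀ s else if s ∈ B then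
    S.plain V s else decide (∃ j < J, s = ts c.i (xs c.n j) (W j)) with hP
  set Val : (List Bool → Bool) → List Bool → Prop := fun O s =>
    ∃ N x w, s = cd N x (dg (D.kl N x.length) (c.κ base θ J N x.length)) w ∧
      ¬ AccN S D (G O) N x with hVal
  set Fr : List Bool → Prop := fun s => c.Fx s ∨ s ∈ B ∨ ¬ IsCode D s with hFr
  obtain ⟨O, hO⟩ := Pool.Agent.LibSpec4.exists_fix (fun O s => if Fr s then P s else decide (Val O s)) (by
    intro O O' s h
    by_cases h1 : Fr s
    · simp only [if_pos h1]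
    · simp only [if_neg h1]
      have hcode : IsCode D s := by
        by_contra hc
        exact h1 (Or.inr (Or.inr hc))
      obtain ⟨N, x, r, w, rfl, hw, hr⟩ := hcode
      have hag : ∀ n ≤ D.q N x.length, G O n = G O' n := fun n hn => hG1 O O' n fun u hu => h u (by
        have := length_lt_cd N x r w
        have := D.q_lt_wl N x.length
        omega)
      refine decide_eq_decide.2 ⟨?_, ?_⟩
      · rintro ⟨N', x', w', h2, h3⟩
        obtain ⟨rfl, rfl, rfl, rfl⟩ := cd_injective h2
        exact ⟨N, x, w, rfl, by rwa [accN_agree hag] at h3⟩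
      · rintro ⟨N', x', w', h2, h3⟩
        obtain ⟨rfl, rfl, rfl, rfl⟩ := cd_injective h2
        exact ⟨N, x, w, rfl, by rwa [← accN_agree hag] at h3⟩)
  have hO1 : ∀ s, Fr s → O s = P s := fun s hs => by
    have := congrFun hO s
    simp only [if_pos hs] at this
    exact this.symm
  have hO2 : ∀ s, ¬ Fr s → (O s = true ↔ Val O s) := fun s hs => by
    have := congrFun hO s
    simp only [if_neg hs] at this
    rw [← this, decide_eq_true_iff]
  have hfix : ∀ s, c.Fx s → O s = S.plain c.E₀ s := fun s hs => by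
    rw [hO1 s (Or.inl hs)]
    simp only [hP, if_pos hs]
  have hext : ∀ s ∈ B, O s = S.plain V s := fun s hs => by
    by_cases h1 : c.Fx s
    · rw [hfix s h1, hF.fixed s hs h1]
    · rw [hO1 s (Or.inr (Or.inl hs))]
      simp only [hP, if_neg h1, if_pos hs]
  obtain ⟨hpl, hlowE, hans⟩ := hG2 O (fun s hs => hfix s (Or.inl hs)) hext hF.low
  set E : S.W := G O with hE
  have hother : ∀ s, ¬ c.Fx s → s ∉ B → ¬ IsCode D s →
      (O s = true ↔ ∃ j < J, s = ts c.i (xs c.n j) (W j)) := fun s h1 h2 h3 => by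
    rw [hO1 s (Or.inr (Or.inr h3))]
    simp only [hP, if_neg h1, if_neg h2, decide_eq_true_iff]
  have hnc : ∀ s : List Bool, ¬ IsCode D (true :: s) := by
    rintro s ⟨N, x, r, w, h, -⟩
    simp [cd, ask] at h
  have htsC : ∀ (i : ℕ) (x w : List Bool), ¬ IsCode D (ts i x w) := fun i x w => hnc _
  have hcens : ∀ j, j < 2 ^ (c.n - 1) → ∀ w, O (ts c.i (xs c.n j) w) = true → j < J := by
    intro j hj w h
    by_cases h1 : c.Fx (ts c.i (xs c.n j) w)
    · exfalso
      rw [hfix _ h1] at h
      obtain ⟨i', x', w', h2, h3⟩ := c.good.tests _ (show S.plain c.E₀ (true :: _) = true from h)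
      obtain ⟨rfl, rfl, rfl⟩ := ts_injective (show ts c.i (xs c.n j) w = ts i' x' w' from h2)
      rw [length_xs c.hn] at h3
      exact not_fx_ts h3 h1
    · by_cases h2 : ts c.i (xs c.n j) w ∈ B
      · rw [hext _ h2] at h
        exact hF.cens j hj w h2 h
      · obtain ⟨j', hj', h3⟩ := (hother _ h1 h2 (htsC _ _ _)).1 h
        have h4 := (ts_injective h3).2.1
        have := xs_injective hj (by omega) h4
        omega
  have hcodes : ∀ s, O (false :: s) = true → IsCode D (false :: s) := by
    intro s h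
    by_contra hc
    by_cases h1 : c.Fx (false :: s)
    · rw [hfix _ h1] at h
      exact hc (c.good.codes s h)
    · by_cases h2 : false :: s ∈ B
      · rw [hext _ h2] at h
        exact hc (hF.codes s h2 h)
      · obtain ⟨j', hj', h3⟩ := (hother _ h1 h2 hc).1 h
        simp [ts] at h3
  have htests : ∀ s, O (true :: s) = true → IsTs e (true :: s) := by
    intro s h
    by_cases h1 : c.Fx (true :: s)
    · rw [hfix _ h1] at h
      exact c.good.tests s h
    · by_cases h2 : true :: s ∈ B
      · rw [hext _ h2] at h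
        exact hF.tests s h2 h
      · obtain ⟨j', hj', h3⟩ := (hother _ h1 h2 (hnc s)).1 h
        exact ⟨_, _, _, h3, by rw [hW1, length_xs c.hn]⟩
  -- facts below the level
  have hlow : ∀ N x, D.q N x.length < c.ℓ → (AccN S D E N x ↔ AccN S D c.E₀ N x) := fun N x h =>
    accN_agree fun n hn => hlowE n (by omega)
  have hκlow : ∀ N m, D.q N m < c.ℓ → ∀ θ', c.κ base θ' J N m = c.ρ₀ N m := fun N m h θ' => by
    unfold Ctx.κ
    rw [if_pos h]
  have hκ0 : ∀ N m, c.ℓ ≤ D.q N m → c.Sm N m → ∀ θ', c.κ base θ' J N m = 0 := fun N m h h' θ' => by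
    unfold Ctx.κ
    rw [if_neg (by omega), if_pos (Or.inl h')]
  have hκ1 : ∀ N m, c.ℓ ≤ D.q N m → ¬ c.Sm N m → ∀ θ', D.wl N m ≤ θ' →
      c.κ base θ' J N m = J - base N m := fun N m h h' θ' h2 => by
    unfold Ctx.κ
    rw [if_neg (by omega), if_neg (by rintro (h3 | h3) <;> first | exact h' h3 | omega)]
  -- freshness
  have hfresh : ∀ N x w j, w.length = D.wl N x.length → D.wl N x.length ≤ θ → c.ℓ ≤ D.q N x.length →
      ¬ c.Sm N x.length → j < 2 ^ D.kl N x.length → J - base N x.length < j →
      O (cd N x (dg (D.kl N x.length) j) w) = false := by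
    intro N x w j hw hθ hq hs hj hJj
    by_contra hne
    rw [Bool.not_eq_false] at hne
    by_cases h2 : cd N x (dg (D.kl N x.length) j) w ∈ B
    · rw [hext _ h2] at hne
      have := hF.fresh N x w j h2 hne hw hj hq hs
      omega
    · have h3 : ¬ Fr (cd N x (dg (D.kl N x.length) j) w) := by
        rintro (h | h | h)
        · exact not_fx_cd hw hq h
        · exact h2 h
        · exact h ⟨N, x, _, w, rfl, hw, length_dg _ _⟩
      obtain ⟨N', x', w', h4, -⟩ := (hO2 _ h3).1 hne
      obtain ⟨rfl, rfl, h5, -⟩ := cd_injective h4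
      rw [hκ1 N x.length hq hs θ hθ] at h5
      have := dg_injective hj (hcap N x.length hq hs hθ) h5
      omega
  -- soundness, by induction on the depth
  have hsound : ∀ d N x w, D.wl N x.length ≤ d → w.length = D.wl N x.length → 
      O (cd N x (dg (D.kl N x.length) (c.κ base θ J N x.length)) w) = true →
      ¬ AccN S D E N x := by
    intro d
    induction d using Nat.strong_induction_on with
    | _ d ih =>
      intro N x w hd hw hO'
      by_cases hq : D.q N x.length < c.ℓ
      · rw [hfix _ (fx_cd hq), hκlow N x.length hq θ] at hO'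
        rw [hlow N x hq]
        exact c.good.sound N x w hw hO'
      · push Not at hq
        by_cases h2 : cd N x (dg (D.kl N x.length) (c.κ base θ J N x.length)) w ∈ B
        · have hlen := hBl _ h2
          have hwθ : D.wl N x.length ≤ θ := by
            have := length_lt_cd N x (dg (D.kl N x.length) (c.κ base θ J N x.length)) w
            omega
          rw [hext _ h2] at hO'
          by_cases hs : c.Sm N x.length
          · obtain ⟨θ', hθ', hst⟩ := hstab N x hs hq hwθ
            rw [hκ0 N x.length hq hs θ] at h2 hO'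
            have hnot := hF.small N x w h2 hO' hw hq hs
            intro hacc
            refine hnot (hst E ⟨hlowE, fun s hs => by rw [hpl, hfix s hs], hans,
              fun s hs => by rw [hpl, hext s hs], fun j hj w h => hcens j hj w (by rwa [hpl] at h),
              fun s h => hcodes s (by rwa [hpl] at h), fun s h => htests s (by rwa [hpl] at h),
              ?_, ?_⟩ hacc)
            · intro N' x' w' hw' hθ'' hO''
              rw [κ_eq (θ' := θ) hθ'' (by omega), hpl] at hO''
              exact ih (D.wl N' x'.length) (by omega) N' x' w' le_rfl hw' hO''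
            · intro N' x' w' j hw' hθ'' h3 h4 h5 h6
              rw [hpl]
              exact hfresh N' x' w' j hw' (by omega) h3 h4 h5 h6
          · exfalso
            have hc := hcap N x.length hq hs hwθ
            rw [hκ1 N x.length hq hs θ hwθ] at h2 hO'
            have := hF.fresh N x w _ h2 hO' hw hc hq hs
            omega
        · have h3 : ¬ Fr (cd N x (dg (D.kl N x.length) (c.κ base θ J N x.length)) w) := by
            rintro (h | h | h)
            · exact not_fx_cd hw hq h
            · exact h2 h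
            · exact h ⟨N, x, _, w, rfl, hw, length_dg _ _⟩
          obtain ⟨N', x', w', h4, h5⟩ := (hO2 _ h3).1 hO'
          obtain ⟨rfl, rfl, -, rfl⟩ := cd_injective h4
          exact h5
  have hsound' : ∀ N x w, w.length = D.wl N x.length → 
      O (cd N x (dg (D.kl N x.length) (c.κ base θ J N x.length)) w) = true →
      ¬ AccN S D E N x :=
    fun N x w hw => hsound _ N x w le_rfl hw
  refine ⟨E, ⟨hlowE, fun s hs => by rw [hpl, hfix s hs], hans,
      fun s hs => by rw [hpl, hext s hs], fun j hj w h => hcens j hj w (by rwa [hpl] at h),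
      fun s h => hcodes s (by rwa [hpl] at h), fun s h => htests s (by rwa [hpl] at h),
      fun N x w hw _ h => hsound' N x w hw (by rwa [hpl] at h),
      fun N x w j h1 h2 h3 h4 h5 h6 => by rw [hpl]; exact hfresh N x w j h1 h2 h3 h4 h5 h6⟩,
    ⟨fun N x w hw h => hsound' N x w hw (by rwa [hpl] at h), ?_,
      fun s h => hcodes s (by rwa [hpl] at h), fun s h => htests s (by rwa [hpl] at h)⟩, ?_⟩
  · -- completeness
    intro N x hN
    by_cases hq : D.q N x.length < c.ℓ
    · rw [hlow N x hq] at hN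
      obtain ⟨w, hw, h⟩ := c.good.complete N x hN
      exact ⟨w, hw, by rw [hpl, hfix _ (fx_cd hq), hκlow N x.length hq θ]; exact h⟩
    · push Not at hq
      obtain ⟨w, hw, hwF⟩ : ∃ w : List Bool, w.length = D.wl N x.length ∧
          cd N x (dg (D.kl N x.length) (c.κ base θ J N x.length)) w ∉ B := by
        by_contra hcon
        push Not at hcon
        have hc := Finset.card_le_card_of_injOn (s := strs (D.wl N x.length)) (t := B)
          (fun w => cd N x (dg (D.kl N x.length) (c.κ base θ J N x.length)) w)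
          (fun w hw => hcon w (mem_strs.1 hw)) (fun w _ w' _ h => (cd_injective h).2.2.2)
        rw [card_strs] at hc
        have h1 := D.q_lt_wl N x.length
        have h2 : 2 ^ e c.i c.n ≤ D.wl N x.length := by
          have : 2 ^ e c.i c.n ≤ c.ℓ := by unfold Ctx.ℓ; omega
          omega
        have h3 : 2 ^ (2 ^ e c.i c.n) ≤ 2 ^ D.wl N x.length := Nat.pow_le_pow_right (by norm_num) h2
        omega
      refine ⟨w, hw, ?_⟩
      rw [hpl]
      refine (hO2 _ ?_).2 ⟨N, x, w, rfl, hN⟩
      rintro (h | h | h)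
      · exact not_fx_cd hw hq h
      · exact hwF h
      · exact h ⟨N, x, _, w, rfl, hw, length_dg _ _⟩
  · intro j hj
    refine ⟨W j, ?_⟩
    rw [hpl]
    exact (hother _ (not_fx_ts (hW1 j)) (hW2 j) (htsC _ _ _)).2 ⟨j, hj, rfl⟩

end Pool.Agent.LibAL48
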