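import Pool.Agent.LibAL48.Stage

/-!
The limit of the stages.
-/

namespace Pool.Agent.LibAL48

open Function Filter Pool.Agent.LibNexp
open Pool.Agent.LibSpec4 (dg dg_injective length_dg ask ask_injective xs length_xs xs_injective
  acc_use')
open Pool.Agent.LibTA48 (cd cd_injective length_cd length_lt_cd)
open Pool.Agent.LibCL48 (Data ts Tst ts_injective length_ts ts_ne_cd IsCode IsTs PlanK Pre lv
  tst_agree)

theorem toPlan {S : Sys} {D D' : Data} {e : ℕ → ℕ → ℕ} {k i n : ℕ} {Sm : ℕ → ℕ → Prop}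
    {Θ : ℕ → ℕ} {G : ℕ → Finset (ℕ × ℕ)} {τ : ℕ} {R : ℕ → ℕ} {U : ℕ}
    (h : PlanK D e k i n Sm Θ G τ R U)
    (hq : ∀ N m, D'.clock N m = D.clock N m) (hk : ∀ N m, D'.kl N m = D.kl N m)
    (hw : ∀ N < k, ∀ m, D'.wl N m = D.wl N m) (hbig : ∀ N, k ≤ N → ∀ m, Θ τ < D'.wl N m)
    {ρ₀ : ℕ → ℕ → ℕ} {E₀ : S.W} (hg : Good S D' e ρ₀ E₀) :
    Plan (⟨E₀, ρ₀, hg, i, n, h.pos, Sm⟩ : Ctx S D' e) Θ G τ R U := by
  have hqq : ∀ N m, D'.q N m = D.q N m := fun N m => by unfold Data.q; rw [hq]
  have hmono : ∀ t ≤ τ, Θ t ≤ Θ τ := by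
    intro t ht
    induction τ, ht using Nat.le_induction with
    | base => exact le_rfl
    | succ b hab ih =>
      have h1 : ∀ b', t ≤ b' → b' ≤ b + 1 → Θ t ≤ Θ b' := by
        intro b' h1
        induction b', h1 using Nat.le_induction with
        | base => intro _; exact le_rfl
        | succ b' hb' ih' => intro h2; exact le_trans (ih' (by omega)) (h.mono b' (by omega))
      exact h1 (b + 1) (by omega) le_rfl
  refine ⟨h.mono, ?_, ?_, h.step, h.last, h.first, ?_, h.count⟩
  · intro t ht N m hNm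
    obtain ⟨h1, h2, h3⟩ := h.grp t ht N m hNm
    rw [hqq, hw N h1]
    exact ⟨h2, h3⟩
  · intro N m hs h1 h2
    have h3 := h.smk N m hs
    rw [hw N h3] at h2
    rw [hqq] at h1
    exact h.cover N m hs h1 h2
  · intro t ht N m h1 h2 h3 h4
    have h5 : N < k := by
      by_contra hcon
      have := hbig N (by omega) m
      have := hmono t ht
      omega
    rw [hqq] at h1
    rw [hw N h5] at h3
    rw [hk]
    exact h.cap t ht N m h5 h1 h2 h3 fun t' ht' => by rw [← hw N h5]; exact h4 t' ht'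

theorem exists_good (S : Sys) (D : Data) (e : ℕ → ℕ → ℕ) : ∃ ρ E, Good S D e ρ E := by
  classical
  choose x₀ hx₀ using fun n => S.ex n fun _ => false
  obtain ⟨G, hG1, hG2⟩ := exists_glue S 0 x₀ x₀ ∅
  have hb0 : S.bad ∅ = ∅ := by
    have := S.card_bad ∅
    rw [Finset.card_empty] at this
    exact Finset.card_eq_zero.1 (Nat.le_zero.1 this)
  set Val : (List Bool → Bool) → List Bool → Prop := fun O s =>
    ∃ N x w, s = cd N x (dg (D.kl N x.length) 0) w ∧ w.length = D.wl N x.length ∧
      ¬ AccN S D (G O) N x with hVal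
  have hval : ∀ {O O' : List Bool → Bool} {s : List Bool},
      (∀ u : List Bool, u.length < s.length → O u = O' u) → Val O s → Val O' s := by
    rintro O O' s h ⟨N, x, w, rfl, hw, h2⟩
    refine ⟨N, x, w, rfl, hw, ?_⟩
    rwa [← accN_agree fun n hn => hG1 O O' n fun u hu => h u (by
      have := length_lt_cd N x (dg (D.kl N x.length) 0) w
      have := D.q_lt_wl N x.length
      omega)]
  obtain ⟨O, hO⟩ := Pool.Agent.LibSpec4.exists_fix (fun O s => decide (Val O s)) (by
    intro O O' s h
    exact decide_eq_decide.2 ⟨hval h, hval fun u hu => (h u hu).symm⟩)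
  have hO2 : ∀ s, O s = true ↔ Val O s := fun s => by
    have := congrFun hO s
    rw [← this, decide_eq_true_iff]
  obtain ⟨hpl, -, -⟩ := hG2 O (fun s hs => by omega) (fun s hs => by rw [hb0] at hs; simp at hs)
    (fun n hn => by omega)
  refine ⟨fun _ _ => 0, G O, ⟨?_, ?_, ?_, ?_⟩⟩
  · intro N x w hw h
    rw [hpl] at h
    obtain ⟨N', x', w', h1, -, h2⟩ := (hO2 _).1 h
    obtain ⟨rfl, rfl, -, rfl⟩ := cd_injective h1
    exact h2
  · intro N x hN
    refine ⟨List.replicate (D.wl N x.length) false, by simp, ?_⟩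
    rw [hpl]
    exact (hO2 _).2 ⟨N, x, _, rfl, by simp, hN⟩
  · intro s h
    rw [hpl] at h
    obtain ⟨N', x', w', h1, h3, h2⟩ := (hO2 _).1 h
    exact ⟨N', x', _, w', h1, h3, length_dg _ _⟩
  · intro s h
    rw [hpl] at h
    obtain ⟨N', x', w', h1, h3, h2⟩ := (hO2 _).1 h
    simp [cd, ask] at h1

/-- The limit world. -/
theorem exists_world {S : Sys} {D : Data} {e : ℕ → ℕ → ℕ} {i n Sz : ℕ → ℕ} {p : ℕ → Prog}
    {T : ℕ → ℕ} {A : ℕ → Finset (List Bool)}
    (hst : ∀ k ρ₀ E₀, Good S D e ρ₀ E₀ → ∃ ρ E, Good S D e ρ E ∧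
      (∀ N m, D.q N m < lv e (i k) (n k) → ρ N m = ρ₀ N m) ∧
      (∀ m < lv e (i k) (n k), E m = E₀ m) ∧
      ∀ a ∈ A k, Wrong S (i k) E (p k) (T k) (n k) a)
    (hAS : ∀ k, ∀ a ∈ A k, ∀ x : List Bool, x.length = n k → (pair x a).length + T k ≤ Sz k)
    (hS : ∀ k, Sz k < lv e (i (k + 1)) (n (k + 1)))
    (hlt : ∀ k, lv e (i k) (n k) < lv e (i (k + 1)) (n (k + 1))) :
    ∃ ρ E, Good S D e ρ E ∧ ∀ k, ∀ a ∈ A k, Wrong S (i k) E (p k) (T k) (n k) a := by
  set lev : ℕ → ℕ := fun k => lv e (i k) (n k) with hlev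
  have lev_mono : ∀ {k k' : ℕ}, k ≤ k' → lev k ≤ lev k' := fun {k k'} h => by
    induction k', h using Nat.le_induction with
    | base => exact le_rfl
    | succ k' _ ih => exact le_trans ih (hlt k').le
  have le_lev : ∀ k, k ≤ lev k := fun k => by
    induction k with
    | zero => exact Nat.zero_le _
    | succ k ih => have := hlt k; simp only [hlev] at ih ⊢; omega
  have hstep : ∀ (k : ℕ) (X₀ : {X : (ℕ → ℕ → ℕ) × S.W // Good S D e X.1 X.2}),
      ∃ X : {X : (ℕ → ℕ → ℕ) × S.W // Good S D e X.1 X.2},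
      (∀ N m, D.q N m < lev k → X.1.1 N m = X₀.1.1 N m) ∧
      (∀ m < lev k, X.1.2 m = X₀.1.2 m) ∧
      ∀ a ∈ A k, Wrong S (i k) X.1.2 (p k) (T k) (n k) a := by
    intro k X₀
    obtain ⟨ρ, E, h1, h2, h3, h4⟩ := hst k X₀.1.1 X₀.1.2 X₀.2
    exact ⟨⟨(ρ, E), h1⟩, h2, h3, h4⟩
  choose st hst1 hst2 hst3 using hstep
  obtain ⟨ρb, Eb, hEb⟩ := exists_good S D e
  set X : ℕ → {X : (ℕ → ℕ → ℕ) × S.W // Good S D e X.1 X.2} :=
    fun k => Nat.rec ⟨(ρb, Eb), hEb⟩ (fun k prev => st k prev) k with hX
  have hX1 : ∀ k, X (k + 1) = st k (X k) := fun k => rfl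
  have hag : ∀ k k', k ≤ k' → (∀ m < lev k, (X k').1.2 m = (X k).1.2 m) ∧
      (∀ N m, D.q N m < lev k → (X k').1.1 N m = (X k).1.1 N m) := by
    intro k k' h
    induction k', h using Nat.le_induction with
    | base => exact ⟨fun _ _ => rfl, fun _ _ _ => rfl⟩
    | succ k' h ih =>
      refine ⟨fun m hm => ?_, fun N m hq => ?_⟩
      · rw [hX1, hst2 _ _ m (lt_of_lt_of_le hm (lev_mono h)), ih.1 m hm]
      · rw [hX1, hst1 _ _ N m (lt_of_lt_of_le hq (lev_mono h)), ih.2 N m hq]
  set E : S.W := fun m => (X (m + 1)).1.2 m with hE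
  set ρ : ℕ → ℕ → ℕ := fun N m => (X (D.q N m + 1)).1.1 N m with hρ
  have hEX : ∀ k, ∀ m < lev k, E m = (X k).1.2 m := by
    intro k m hm
    have h1 : m < lev (m + 1) := by
      have := le_lev (m + 1)
      omega
    rcases Nat.le_total k (m + 1) with h | h
    · exact (hag _ _ h).1 m hm
    · exact ((hag _ _ h).1 m h1).symm
  have hpl : ∀ k, ∀ s : List Bool, s.length < lev k → S.plain E s = S.plain (X k).1.2 s :=
    fun k s hs => plain_agree (hEX k _ hs)
  have hρX : ∀ k N m, D.q N m < lev k → ρ N m = (X k).1.1 N m := by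
    intro k N m hq
    have h1 : D.q N m < lev (D.q N m + 1) := by
      have := le_lev (D.q N m + 1)
      omega
    rcases Nat.le_total k (D.q N m + 1) with h | h
    · exact (hag _ _ h).2 N m hq
    · exact ((hag _ _ h).2 N m h1).symm
  have hcodes : ∀ s, S.plain E (false :: s) = true → IsCode D (false :: s) := fun s hs =>
    (X ((false :: s).length + 1)).2.codes s (by
      rw [← hpl ((false :: s).length + 1) (false :: s) (by
        have := le_lev ((false :: s).length + 1)
        omega)]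
      exact hs)
  have htests : ∀ s, S.plain E (true :: s) = true → IsTs e (true :: s) := fun s hs =>
    (X ((true :: s).length + 1)).2.tests s (by
      rw [← hpl ((true :: s).length + 1) (true :: s) (by
        have := le_lev ((true :: s).length + 1)
        omega)]
      exact hs)
  refine ⟨ρ, E, ⟨?_, ?_, hcodes, htests⟩, ?_⟩
  · intro N x w hw h1
    set s := cd N x (dg (D.kl N x.length) (ρ N x.length)) w with hs
    set K := s.length + 1 with hK
    have hlen : s.length < lev K := by
      have := le_lev K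
      omega
    have hqs : D.q N x.length < lev K := by
      have h2 := length_lt_cd N x (dg (D.kl N x.length) (ρ N x.length)) w
      rw [← hs] at h2
      have := D.q_lt_wl N x.length
      omega
    rw [hpl K s hlen, hs, hρX K N x.length hqs] at h1
    rw [accN_agree (E' := (X K).1.2) fun m hm => hEX K m (by omega)]
    exact (X K).2.sound N x w hw h1
  · intro N x hN
    set K := N + 4 * x.length + 2 * D.kl N x.length + D.q N x.length + D.wl N x.length + 9 with hK
    have hlevK := le_lev K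
    have hqs : D.q N x.length < lev K := by omega
    rw [accN_agree (E' := (X K).1.2) fun m hm => hEX K m (by omega)] at hN
    obtain ⟨w, hw, h1⟩ := (X K).2.complete N x hN
    refine ⟨w, hw, ?_⟩
    rw [hρX K N x.length hqs, hpl K]
    · exact h1
    · rw [length_cd, hw, length_dg]
      omega
  · intro k a ha
    have h1 := hst3 k (X k) a ha
    rw [← hX1] at h1
    obtain ⟨x, hx, h3⟩ := h1
    refine ⟨x, hx, fun h4 => h3 ?_⟩
    have e1 : x ∈ Tst (i k) (S.plain (X (k + 1)).1.2) ↔ x ∈ Tst (i k) (S.plain E) :=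
      tst_agree (X (k + 1)).2.tests htests fun s hs => (hpl (k + 1) s (by
        rw [hx] at hs
        have := hlt k
        simp only [hlev]
        omega)).symm
    have e2 : Acc (S.rich (X (k + 1)).1.2) (p k) (T k) (pair x a) ↔
        Acc (S.rich E) (p k) (T k) (pair x a) := by
      have h5 : ∀ s : List Bool, s.length ≤ (pair x a).length + T k →
          S.rich (X (k + 1)).1.2 s = S.rich E s := fun s hs =>
        rich_agree (L := (pair x a).length + T k) (fun m hm => (hEX (k + 1) m (by
          have := hAS k a ha x hx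
          have := hS k
          simp only [hlev]
          omega)).symm) hs
      exact ⟨acc_agree h5, acc_agree fun s hs => (h5 s hs).symm⟩
    rw [e1, e2]
    exact h4

/-- The construction for all requirements. -/
theorem engine (S : Sys) {ι : Type} [Countable ι] [Nonempty ι] (P : Pre) (e : ℕ → ℕ → ℕ)
    (p : ι → Prog) (i : ι → ℕ) (T : ι → ℕ → ℕ) (A : ι → ℕ → Finset (List Bool))
    (hfit : ∀ r k H, ∀ᶠ n in atTop, ∃ Sm Θ G τ R U, PlanK (P.toData H) e k (i r) n Sm Θ G τ R U ∧
      (A r n).card ≤ U ∧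
      ∀ a ∈ A r n, ∀ x : List Bool, x.length = n → (pair x a).length + T r n ≤ Θ τ) :
    ∃ H ρ E, Good S (P.toData H) e ρ E ∧
      ∀ r, ∃ᶠ n in atTop, ∀ a ∈ A r n, Wrong S (i r) E (p r) (T r n) n a := by
  classical
  obtain ⟨rq, hrq⟩ := exists_surjective_nat (ι × ℕ)
  have hex : ∀ k (H : ℕ → ℕ) (M : ℕ), ∃ n Sz, M ≤ n ∧ ∃ Sm Θ G τ R U, Θ τ = Sz ∧
      PlanK (P.toData H) e k (i (rq k).1) n Sm Θ G τ R U ∧ (A (rq k).1 n).card ≤ U ∧
      ∀ a ∈ A (rq k).1 n, ∀ x : List Bool, x.length = n →
        (pair x a).length + T (rq k).1 n ≤ Θ τ := by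
    intro k H M
    obtain ⟨n, h1, h2⟩ := ((hfit (rq k).1 k H).and (eventually_ge_atTop M)).exists
    obtain ⟨Sm, Θ, G, τ, R, U, h3⟩ := h1
    exact ⟨n, Θ τ, h2, Sm, Θ, G, τ, R, U, rfl, h3⟩
  choose fn fS hM hpl using hex
  -- the sequence of the shifts and of the lower bounds
  set X : ℕ → (ℕ → ℕ) × ℕ := fun k => Nat.rec ((fun _ => 0), 0) (fun k X =>
    ((fun N => if N < k then X.1 N else max (X.1 N) (fS k X.1 X.2)),
      fS k X.1 X.2 + lv e (i (rq k).1) (fn k X.1 X.2) + 1)) k with hX
  have hX1 : ∀ k, X (k + 1) = ((fun N => if N < k then (X k).1 N else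
      max ((X k).1 N) (fS k (X k).1 (X k).2)),
      fS k (X k).1 (X k).2 + lv e (i (rq k).1) (fn k (X k).1 (X k).2) + 1) := fun k => rfl
  set n : ℕ → ℕ := fun k => fn k (X k).1 (X k).2 with hn
  set Sz : ℕ → ℕ := fun k => fS k (X k).1 (X k).2 with hS
  set H : ℕ → ℕ := fun N => (X (N + 1)).1 N with hH
  have hH1 : ∀ k N, N < k → (X k).1 N = H N := by
    intro k
    induction k with
    | zero => intro N hN; omega
    | succ k ih =>
      intro N hN
      rcases Nat.lt_or_ge N k with h | h
      · rw [hX1]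
        simp only [if_pos h]
        exact ih N h
      · have : N = k := by omega
        subst this
        rfl
  have hH2 : ∀ k N, k ≤ N → ∀ j, k < j → j ≤ N + 1 → Sz k ≤ (X j).1 N := by
    intro k N hk j hj
    induction j, hj using Nat.le_induction with
    | base =>
      intro _
      rw [hX1]
      simp only [if_neg (show ¬ N < k by omega)]
      exact le_max_right _ _
    | succ j hj ih =>
      intro hjN
      rw [hX1]
      simp only [if_neg (show ¬ N < j by omega)]
      exact le_trans (ih (by omega)) (le_max_left _ _)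
  have hge : ∀ k, Sz k + lv e (i (rq k).1) (n k) + 1 ≤ n (k + 1) := fun k => hM (k + 1) _ _
  have hlvn : ∀ k, n k ≤ lv e (i (rq k).1) (n k) := fun k => by
    have := Nat.two_pow_pos (e (i (rq k).1) (n k))
    unfold lv
    omega
  obtain ⟨ρ, E, hE, hreq⟩ := exists_world (S := S) (D := P.toData H) (e := e)
    (i := fun k => i (rq k).1)
    (n := n) (Sz := Sz) (p := fun k => p (rq k).1) (T := fun k => T (rq k).1 (n k))
    (A := fun k => A (rq k).1 (n k)) (by
      intro k ρ₀ E₀ hg
      obtain ⟨Sm, Θ, G, τ, R, U, h1, h2, h3, h4⟩ := hpl k (X k).1 (X k).2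
      have hplan := toPlan h2 (D' := P.toData H) (fun _ _ => rfl) (fun _ _ => rfl)
        (fun N hN m => by
          show P.w N m + H N = P.w N m + (X k).1 N
          rw [hH1 k N hN])
        (fun N hN m => by
          show Θ τ < P.w N m + H N
          have h5 := hH2 k N hN (N + 1) (by omega) le_rfl
          have h6 := P.lt_w N m
          have h9 := Nat.two_pow_pos (P.clock N m)
          have h7 : Θ τ = Sz k := h1
          have h8 : Sz k ≤ H N := h5
          omega) hg
      exact stage hplan h3 (by have := h2.last; omega) h4)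
    (by
      intro k a ha x hx
      obtain ⟨Sm, Θ, G, τ, R, U, h1, h2, h3, h4⟩ := hpl k (X k).1 (X k).2
      have := h4 a ha x hx
      have h7 : Θ τ = Sz k := h1
      rw [← h7]
      exact this)
    (fun k => by
      have := hge k
      have := hlvn (k + 1)
      omega)
    (fun k => by
      have := hge k
      have := hlvn (k + 1)
      omega)
  refine ⟨H, ρ, E, hE, fun r => ?_⟩
  rw [frequently_atTop]
  intro M
  have hnmono : ∀ k, k ≤ n k := by
    intro k
    induction k with
    | zero => exact Nat.zero_le _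
    | succ k ih =>
      have := hge k
      have := hlvn k
      omega
  have hk : ∃ k, M ≤ k ∧ (rq k).1 = r := by
    by_contra hcon
    push Not at hcon
    choose g hg using fun j : ℕ => hrq (r, j)
    have hginj : Injective g := by
      intro j j' h
      have h1 := hg j
      rw [h, hg j'] at h1
      simpa using h1.symm
    have hlt : ∀ j, g j < M := by
      intro j
      by_contra hge
      push Not at hge
      exact hcon (g j) hge (by rw [hg j])
    have hc := Finset.card_le_card_of_injOn (s := Finset.range (M + 1)) (t := Finset.range M) g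
      (fun j _ => Finset.mem_coe.2 (Finset.mem_range.2 (hlt j))) (fun j _ j' _ h => hginj h)
    rw [Finset.card_range, Finset.card_range] at hc
    omega
  obtain ⟨k, hk, rfl⟩ := hk
  exact ⟨n k, le_trans hk (hnmono k), fun a ha => hreq k a ha⟩

end Pool.Agent.LibAL48
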