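import Pool.Agent.LibCL48.UnivRed
import Pool.Agent.LibAL48.Defs

/-!
Closure of nondeterministic exponential time under complements, for two oracles.
-/

namespace Pool.Agent.LibAL48

open Function Filter Pool.Agent.LibNexp
open Pool.Agent.LibTA48 (NTLang TB ntLang_of_tb ntLang_mono size_one)
open Pool.Agent.LibCL48 (Adv Adv.mono pad_mem pad_back_mem adv_comp zt zt_le_pow zt_spec
  le_rpow_add_one UnivLang univ_reduce univ_back_mem ceil_sq nexp_pairNil nexp_sub_ntLang univ_mem
  ntLang_sub_nexp)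

variable {X Y : List Bool → Bool}

theorem Enough.mono {a a' b b' c c' : ℝ} (h : Enough X Y a b c) (ha : a' ≤ a) (hb : b ≤ b')
    (hc : 0 ≤ c) (hcc : c ≤ c') : Enough X Y a' b' c' := by
  intro L hL
  obtain ⟨B, hB, f, hf, heq⟩ := h L (ntLang_mono ha hL)
  exact ⟨B, ntLang_mono hb hB, f, Adv.mono hc hcc hf, heq⟩

/-- Padding. -/
theorem enough_pad {a b c : ℝ} {p q : ℕ} (hq : 1 ≤ q) (hpq : q ≤ p) (ha : 0 < a) (hb : 0 < b)
    (hc : 0 ≤ c) (h : Enough X Y a b c) :
    Enough X Y ((p : ℝ) / q * a) ((p : ℝ) / q * b) ((p : ℝ) / q * c) := by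
  have hq0 : (0 : ℝ) < q := by exact_mod_cast hq
  have hr : (1 : ℝ) ≤ (p : ℝ) / q := by
    rw [le_div_iff₀ hq0, one_mul]
    exact_mod_cast hpq
  intro L hL
  obtain ⟨B, hB, f, hf, heq⟩ := h _ (pad_mem hq ha hL)
  refine ⟨_, pad_back_mem hq hpq hb hB, fun n => f (2 * n + 2 + zt p q n),
    adv_comp hc (by linarith) hf (A := 5) (by norm_num) (fun n => ?_), ?_⟩
  · have h1 := zt_le_pow (p := p) hq n
    have h2 := le_rpow_add_one hr n
    have h3 : (0 : ℝ) ≤ (n : ℝ) ^ ((p : ℝ) / q) := by positivity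
    push_cast
    linarith
  · ext x
    have hx : ∀ y : List Bool, y.length = zt p q x.length → (pair x y ∈
        ({w | ∃ z : Fin 2 → List Bool, w = pair (z 0) (z 1) ∧ (z 0).length ^ p ≤ (z 1).length ^ q ∧
          z 0 ∈ L} : Lang) ↔ x ∈ L) := by
      intro y hy
      constructor
      · rintro ⟨z, h1, -, h2⟩
        rw [(pair_injective h1).1]
        exact h2
      · intro h1
        refine ⟨![x, y], rfl, ?_, h1⟩
        show x.length ^ p ≤ y.length ^ q
        rw [hy]
        exact zt_spec hq _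
    have hlen : ∀ y : List Bool, y.length = zt p q x.length →
        (pair x y).length = 2 * x.length + 2 + zt p q x.length := by
      intro y hy
      rw [length_pair, hy]
      ring
    constructor
    · intro hxL
      set y := List.replicate (zt p q x.length) true with hy
      have hyl : y.length = zt p q x.length := by simp [hy]
      have h1 : pair x y ∈ ({w | ∃ z : Fin 2 → List Bool, w = pair (z 0) (z 1) ∧
          (z 0).length ^ p ≤ (z 1).length ^ q ∧ z 0 ∈ L} : Lang)ᶜ := fun h2 => hxL ((hx y hyl).1 h2)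
      rw [heq, Set.mem_ofPred_eq, hlen y hyl] at h1
      exact ⟨![x, f (2 * x.length + 2 + zt p q x.length), y, pair x y], rfl, hyl, rfl, h1⟩
    · rintro ⟨z, h1, h2, h3, h4⟩ hxL
      obtain ⟨h5, h6⟩ := pair_injective h1
      rw [← h5] at h2 h3
      rw [← h6, h3] at h4
      have h4' : pair (pair x (z 2)) (f (2 * x.length + 2 + zt p q x.length)) ∈ B := h4
      rw [← hlen _ h2] at h4'
      have h7 : pair x (z 2) ∈ ({w | ∃ z : Fin 2 → List Bool, w = pair (z 0) (z 1) ∧
          (z 0).length ^ p ≤ (z 1).length ^ q ∧ z 0 ∈ L} : Lang)ᶜ := by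
        rw [heq]
        exact h4'
      exact h7 ((hx _ h2).2 hxL)

/-- Complements without advice. -/
theorem compl_of_univ {b : ℝ} (hb : 0 < b) (h : (UnivLang X)ᶜ ∈ NTLang Y b) :
    Enough X Y 2 (2 * b) 0 := by
  intro L hL
  obtain ⟨u, E, C, hC⟩ := univ_reduce (by norm_num) hL
  refine ⟨_, univ_back_mem hb h u E C, fun _ => [], ⟨⟨0, fun n => by simp⟩, fun _ _ => rfl⟩, ?_⟩
  ext x
  rw [Set.mem_compl_iff]
  constructor
  · intro hx
    refine ⟨![x, [], List.replicate (x.length ^ 2) true,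
      List.replicate (C * x.length ^ 2 + C) true, E, pair x E, u, pair u (pair x E)],
      rfl, rfl, ?_, ?_, rfl, rfl, rfl, rfl, ?_⟩
    · show (List.replicate (x.length ^ 2) true).length = x.length ^ 2
      simp
    · show (List.replicate (C * x.length ^ 2 + C) true).length =
        C * (List.replicate (x.length ^ 2) true).length + C
      simp
    · show ¬ pair (pair u (pair x E)) (List.replicate (C * x.length ^ 2 + C) true) ∈ UnivLang X
      rw [← hC x _ (by rw [List.length_replicate, ceil_sq])]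
      exact hx
  · rintro ⟨z, h1, h2, h3, h4, h5, h6, h7, h8, h9⟩
    obtain ⟨h10, -⟩ := pair_injective h1
    rw [h8, h7, h6, h5, ← h10] at h9
    rw [hC x (z 3) (by rw [h4, h3, ceil_sq, ← h10])]
    exact h9

/-- The complements of the languages in nondeterministic exponential time with oracle `X` are in
nondeterministic exponential time with oracle `Y` if and only if `(1, b, 0)` is feasible for
some `b`. -/
theorem closed_iff (X Y : List Bool → Bool) :
    (∀ L ∈ NEXPLang X, Lᶜ ∈ NEXPLang Y) ↔ ∃ b : ℝ, Feas X Y 1 b 0 := by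
  constructor
  · intro h
    obtain ⟨b, hb1, hb⟩ := nexp_sub_ntLang (h _ (univ_mem X))
    have hb0 : (1 : ℝ) ≤ b := by exact_mod_cast hb1
    exact ⟨2 * b + 1, by norm_num, by linarith, le_rfl, by norm_num, 2, 2 * b, 0, by norm_num,
      by linarith, le_rfl, Or.inr ⟨rfl, rfl⟩, compl_of_univ (by linarith) hb⟩
  · rintro ⟨b, -, h2, -, -, a', b', c', h5, h6, h8, h9, h10⟩ L hL
    have hc : c' = 0 := by rcases h9 with h9 | ⟨h9, -⟩ <;> linarith
    subst hc
    obtain ⟨k, hk1, hk⟩ := nexp_sub_ntLang hL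
    have hk0 : (1 : ℝ) ≤ k := by exact_mod_cast hk1
    have h11 := enough_pad (p := k) (q := 1) le_rfl hk1 (show (0 : ℝ) < 1 by norm_num)
      (show 0 < max b' 1 by exact lt_max_of_lt_right one_pos) le_rfl
      (h10.mono h5.le (le_max_left b' 1) le_rfl le_rfl)
    rw [Nat.cast_one, div_one, mul_one, mul_zero] at h11
    obtain ⟨B, hB, f, ⟨-, hf⟩, heq⟩ := h11 L hk
    have h12 : Lᶜ = {x | pair x [] ∈ B} := by
      rw [heq]
      ext x
      rw [Set.mem_ofPred_eq, Set.mem_ofPred_eq, hf rfl]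
    rw [h12]
    exact nexp_pairNil (ntLang_sub_nexp hB)

end Pool.Agent.LibAL48
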