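import Pool.Agent.LibAL48.Oracle
import Pool.Agent.LibAL48.Ext
import Pool.Agent.LibAL48.Sub
import Pool.Agent.LibAL48.Mix

/-!
The relations between time and advice for complementation, relative to oracles and to their
extensions by polynomials.
-/

namespace Pool.Agent.LibAL48

open Pool.Agent.LibNexp
open Pool.Agent.LibTA48 (NTLang)
open Pool.Agent.LibCL48 (Laws laws_feas)

/-- A family of fields. -/
noncomputable def trivialFields : Fields where
  K _ := ZMod 2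
  inst _ := inferInstance
  enc _ x := if x = 0 then [] else [true]
  inj _ := by
    intro x y h
    have hx : ∀ z : ZMod 2, z = 0 ∨ z = 1 := by decide
    rcases hx x with rfl | rfl <;> rcases hx y with rfl | rfl
    · rfl
    · simp at h
    · simp at h
    · rfl

theorem exists_all {F : ℝ → ℝ → ℝ → Prop} (hF : Laws F) (𝕂 : Fields) :
    ∃ (O : List Bool → Bool) (P : ∀ s n, MvPolynomial (Fin n) (𝕂.K s)), IsExt 𝕂 O P ∧
      ∀ X ∈ ({O, ext 𝕂 O P} : Set (List Bool → Bool)),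
      ∀ Y ∈ ({O, ext 𝕂 O P} : Set (List Bool → Bool)), ∀ a b c, Feas X Y a b c ↔ F a b c := by
  obtain ⟨E, h1, h2⟩ := exists_world_of_laws (sys 𝕂) hF
  obtain ⟨h3, h4⟩ := world_spec E
  rw [h4] at h1 h2
  set O := (sys 𝕂).plain E with hO
  set P : ∀ s n, MvPolynomial (Fin n) (𝕂.K s) := fun s n => (E n).1.2 s with hP
  have hsub : ∀ l : ℝ, NTLang O l ⊆ NTLang (ext 𝕂 O P) l := fun l L hL =>
    ntLang_sub (fun u => rfl) hL
  have hrefl : ∀ l : ℝ, NTLang O l ⊆ NTLang O l := fun l => subset_rfl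
  have hrefl' : ∀ l : ℝ, NTLang (ext 𝕂 O P) l ⊆ NTLang (ext 𝕂 O P) l := fun l => subset_rfl
  refine ⟨O, P, h3, ?_⟩
  rintro X (rfl | rfl) Y (rfl | rfl) a b c
  · exact ⟨fun h => h1 a b c (h.anti hrefl hsub), fun h => (h2 a b c h).anti hsub hrefl⟩
  · exact ⟨h1 a b c, fun h => (h2 a b c h).anti hsub hsub⟩
  · exact ⟨fun h => h1 a b c (h.anti hsub hsub), h2 a b c⟩
  · exact ⟨fun h => h1 a b c (h.anti hsub hrefl'), fun h => (h2 a b c h).anti hrefl' hsub⟩

theorem main :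
    (∀ F : ℝ → ℝ → ℝ → Prop, List.TFAE [
      Laws F,
      ∃ O : List Bool → Bool, ∀ a b c, Feas O O a b c ↔ F a b c,
      ∀ 𝕂 : Fields, ∃ (O : List Bool → Bool) (P : ∀ s n, MvPolynomial (Fin n) (𝕂.K s)),
        IsExt 𝕂 O P ∧
        ∀ X ∈ ({O, ext 𝕂 O P} : Set (List Bool → Bool)),
        ∀ Y ∈ ({O, ext 𝕂 O P} : Set (List Bool → Bool)), ∀ a b c, Feas X Y a b c ↔ F a b c]) ∧
    ∀ X Y : List Bool → Bool, (∀ L ∈ NEXPLang X, Lᶜ ∈ NEXPLang Y) ↔ ∃ b : ℝ, Feas X Y 1 b 0 := by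
  refine ⟨fun F => ?_, closed_iff⟩
  tfae_have 1 → 3 := fun h 𝕂 => exists_all h 𝕂
  tfae_have 3 → 2 := by
    intro h
    obtain ⟨O, P, -, h1⟩ := h trivialFields
    exact ⟨O, h1 O (Or.inl rfl) O (Or.inl rfl)⟩
  tfae_have 2 → 1 := by
    rintro ⟨O, hO⟩
    have h : Pool.Agent.LibCL48.Feas O = F := by
      funext a b c
      exact propext (hO a b c)
    exact h ▸ laws_feas O
  tfae_finish

end Pool.Agent.LibAL48
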