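import Pool.Agent.LibAL48.Build

/-!
One stage of the construction: the tables of the small facts are frozen first, in the order of
their depth, then the requirement is met.
-/

namespace Pool.Agent.LibAL48

open Function Pool.Agent.LibNexp
open Pool.Agent.LibSpec4 (dg dg_injective length_dg ask ask_injective xs length_xs xs_injective
  acc_use')
open Pool.Agent.LibTA48 (cd cd_injective length_cd length_lt_cd)
open Pool.Agent.LibCL48 (Data ts Tst ts_injective length_ts ts_ne_cd IsCode IsTs univ mem_univ'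
  card_univ_le)

variable {S : Sys} {D : Data} {e : ℕ → ℕ → ℕ} {c : Ctx S D e}

/-- The advice `a` is wrong for complementing a test language at length `n`. -/
def Wrong (S : Sys) (i : ℕ) (E : S.W) (p : Prog) (T n : ℕ) (a : List Bool) : Prop :=
  ∃ x : List Bool, x.length = n ∧ ¬ (x ∉ Tst i (S.plain E) ↔ Acc (S.rich E) p T (pair x a))

/-- Freezing queries in a legal world. -/
theorem freeze {base : ℕ → ℕ → ℕ} {θ J J' : ℕ} {F Q : Finset (List Bool)} {V E : S.W}
    {Tab Tab' : Set (ℕ × List Bool)} (hF : Fz c base θ F V J Tab) (hO : Leg c base θ F V J' E)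
    (hQ : ∀ s ∈ Q, s.length ≤ θ)
    (hTab : ∀ N x, (N, x) ∈ Tab' → (N, x) ∈ Tab ∨ (θ < D.wl N x.length ∧
      ∀ E' : S.W, (∀ t ∈ Q, S.rich E' t = S.rich E t) → AccN S D E' N x))
    (hbase : ∀ N m, D.wl N m ≤ θ → base N m ≤ J') [DecidableEq (List Bool)] :
    Fz c base θ (F ∪ Q) E (J' + 1) Tab' := by
  have hlen : ∀ s ∈ F ∪ Q, s.length ≤ θ := by
    intro s hs
    rcases Finset.mem_union.1 hs with h | h
    · exact hF.len s h
    · exact hQ s h
  have hblen := bad_len (S := S) hlen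
  have hwl : ∀ {N : ℕ} {x r w : List Bool}, cd N x r w ∈ S.bad (F ∪ Q) →
      w.length = D.wl N x.length → D.wl N x.length ≤ θ := by
    intro N x r w h hw
    have := hblen _ h
    have := length_lt_cd N x r w
    omega
  refine ⟨hlen, hO.low, fun s _ hs => hO.fixed s hs, fun j hj w _ h => ?_,
    fun s _ h => hO.codes s h, fun s _ h => hO.tests s h, ?_, ?_, ?_⟩
  · have := hO.cens j hj w h
    omega
  · intro N x w j hmem h hw hj hq hs
    have h1 := hwl hmem hw
    have h2 := hbase N x.length h1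
    by_contra hcon
    rw [hO.fresh N x w j hw h1 hq hs hj (by omega)] at h
    exact absurd h (by simp)
  · intro N x w hmem h hw hq hs hT
    have h1 := hwl hmem hw
    have hκ : c.κ base θ J' N x.length = 0 := by
      unfold Ctx.κ
      rw [if_neg (by omega), if_pos (Or.inl hs)]
    have h2 := hO.sound N x w hw h1 (by rw [hκ]; exact h)
    rcases hTab N x hT with h3 | ⟨h3, -⟩
    · exact h2 (hF.acc N x h3 E hO.ext)
    · omega
  · intro N x hT E' hE'
    rcases hTab N x hT with h3 | ⟨-, h3⟩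
    · exact hF.acc N x h3 E' fun s hs => by
        rw [hE' s (Finset.mem_union_left _ hs), hO.ext s hs]
    · exact h3 E' fun s hs => hE' s (Finset.mem_union_right _ hs)

/-- The table of the facts of a group cannot grow as long as the census is at most `B`. -/
def Stab (c : Ctx S D e) (base : ℕ → ℕ → ℕ) (θ : ℕ) (G : Finset (ℕ × ℕ)) (F : Finset (List Bool))
    (V : S.W) (J B : ℕ) (Tab : Set (ℕ × List Bool)) : Prop :=
  ∀ N x, (N, x.length) ∈ G → ∀ J', J ≤ J' → J' ≤ B → ∀ E, Leg c base θ F V J' E →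
    AccN S D E N x → (N, x) ∈ Tab

theorem Stab.mono {base : ℕ → ℕ → ℕ} {θ : ℕ} {G : Finset (ℕ × ℕ)} {F F' : Finset (List Bool)}
    {V V' : S.W} {J J' B B' : ℕ} {Tab Tab' : Set (ℕ × List Bool)}
    (h : Stab c base θ G F V J B Tab) (hF : F ⊆ F') (hv : ∀ t ∈ F, S.rich V t = S.rich V' t)
    (hv' : ∀ s ∈ S.bad F, S.plain V s = S.plain V' s) (hJ : J ≤ J')
    (hB : B' ≤ B) (hT : Tab ⊆ Tab') : Stab c base θ G F' V' J' B' Tab' := by
  intro N x hG K h1 h2 E hE hacc
  exact hT (h N x hG K (le_trans hJ h1) (le_trans h2 hB) E (hE.mono le_rfl hF hv hv') hacc)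

/-- The invariant of a phase. -/
structure Inv (c : Ctx S D e) (Θ : ℕ → ℕ) (G : ℕ → Finset (ℕ × ℕ)) (Sz : ℕ) (t θ : ℕ)
    (base : ℕ → ℕ → ℕ) (F : Finset (List Bool)) (V : S.W) (J B : ℕ)
    (Tab : Set (ℕ × List Bool)) : Prop where
  fz : Fz c base θ F V J Tab
  card : F.card ≤ J * Sz
  stab : ∀ t' < t, Stab c base (Θ t') (G t') F V J B Tab
  base_le : ∀ N m, D.wl N m ≤ θ → base N m ≤ J
  cap : ∀ N m, c.ℓ ≤ D.q N m → ¬ c.Sm N m → D.wl N m ≤ θ → B - base N m < 2 ^ D.kl N m
  le : J ≤ B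
  leB : B ≤ 2 ^ (c.n - 1)

/-- Freezing the tables of a group. -/
theorem phase {Θ : ℕ → ℕ} {G : ℕ → Finset (ℕ × ℕ)} {Sz t r : ℕ} {base : ℕ → ℕ → ℕ}
    (hG : ∀ N m, (N, m) ∈ G t → D.q N m ≤ Θ t ∧ Θ t < D.wl N m) (hS : Θ t ≤ Sz) :
    ∀ (k : ℕ) (F : Finset (List Bool)) (V : S.W) (J B : ℕ)
      (Tab : Set (ℕ × List Bool)), (∀ N x, (N, x) ∈ Tab → True) →
      ((univ (G t) : Set (ℕ × List Bool)) \ Tab).ncard ≤ k →
      J + (k + 1) * (r + 1) ≤ B + 1 → Inv c Θ G Sz t (Θ t) base F V J B Tab →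
      ∃ (F' : Finset (List Bool)) (V' : S.W) (J' B' : ℕ) (Tab' : Set (ℕ × List Bool)),
        Inv c Θ G Sz (t + 1) (Θ t) base F' V' J' B' Tab' ∧ J' + r ≤ B' := by
  classical
  intro k
  induction k with
  | zero =>
    intro F V J B Tab _ hk hB hI
    refine ⟨F, V, J, J + r, Tab, ⟨hI.fz, hI.card, ?_, hI.base_le, ?_, by omega, ?_⟩, le_rfl⟩
    · intro t' ht'
      rcases Nat.lt_or_ge t' t with h | h
      · exact (hI.stab t' h).mono (Finset.Subset.refl _) (fun _ _ => rfl) (fun _ _ => rfl) le_rfl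
          (by omega) (Set.Subset.refl _)
      · have : t' = t := by omega
        subst this
        intro N x hNx J' h1 h2 E hE hacc
        by_contra hcon
        have hfin : ((univ (G t') : Set (ℕ × List Bool)) \ Tab).Finite :=
          (Finset.finite_toSet _).subset Set.sdiff_subset
        have h3 : ((univ (G t') : Set (ℕ × List Bool)) \ Tab).ncard = 0 := by omega
        rw [Set.ncard_eq_zero hfin] at h3
        have : (N, x) ∈ ((univ (G t') : Set (ℕ × List Bool)) \ Tab) :=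
          ⟨by exact_mod_cast mem_univ'.2 hNx, hcon⟩
        rw [h3] at this
        exact this
    · intro N m h1 h2 h3
      have h4 := hI.cap N m h1 h2 h3
      have h5 := hI.base_le N m h3
      omega
    · have := hI.leB
      omega
  | succ k ih =>
    intro F V J B Tab _ hk hB hI
    have hmul : (k + 1 + 1) * (r + 1) = (k + 1) * (r + 1) + (r + 1) := by ring
    rw [hmul] at hB
    by_cases hst : ∃ N x, (N, x.length) ∈ G t ∧ (N, x) ∉ Tab ∧ ∃ J', J ≤ J' ∧ J' ≤ J + r ∧
        ∃ E, Leg c base (Θ t) F V J' E ∧ AccN S D E N x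
    · obtain ⟨N, x, hNx, hT, J', h1, h2, E, hE, hacc⟩ := hst
      obtain ⟨Q, hQ1, hQ2, hQ3⟩ := acc_use' hacc
      have hq := hG N x.length hNx
      have hQlen : ∀ s ∈ Q, s.length ≤ Θ t := fun s hs => by
        have h3 := hQ2 s hs
        have h4 := hq.1
        unfold Data.q at h4
        omega
      have hfz : Fz c base (Θ t) (F ∪ Q) E (J' + 1) (insert (N, x) Tab) := by
        refine freeze hI.fz hE hQlen ?_ fun N m h => le_trans (hI.base_le N m h) h1
        intro N' x' hN'
        rcases hN' with h | h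
        · rw [Prod.mk.injEq] at h
          obtain ⟨rfl, rfl⟩ := h
          exact Or.inr ⟨hq.2, fun E' hE' => hQ3 _ hE'⟩
        · exact Or.inl h
      have hsub : ((univ (G t) : Set (ℕ × List Bool)) \ insert (N, x) Tab) ⊂
          ((univ (G t) : Set (ℕ × List Bool)) \ Tab) := by
        constructor
        · rintro y ⟨hy1, hy2⟩
          exact ⟨hy1, fun h => hy2 (Or.inr h)⟩
        · intro h
          have h3 : (N, x) ∈ ((univ (G t) : Set (ℕ × List Bool)) \ Tab) :=
            ⟨by exact_mod_cast mem_univ'.2 hNx, hT⟩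
          exact (h h3).2 (Or.inl rfl)
      have hfin : ((univ (G t) : Set (ℕ × List Bool)) \ Tab).Finite :=
        (Finset.finite_toSet _).subset Set.sdiff_subset
      have hcard := Set.ncard_lt_ncard hsub hfin
      refine ih (F ∪ Q) E (J' + 1) B (insert (N, x) Tab) (fun _ _ _ => trivial) (by omega)
        (by omega) ⟨hfz, ?_, ?_, ?_, hI.cap, ?_, hI.leB⟩
      · refine le_trans (Finset.card_union_le _ _) ?_
        have h3 := hI.card
        have h4 : Q.card ≤ Sz := by
          have h5 := hq.1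
          unfold Data.q at h5
          omega
        have h5 : J * Sz + Sz ≤ (J' + 1) * Sz := by
          rw [← Nat.succ_mul]
          exact Nat.mul_le_mul_right _ (by omega)
        omega
      · intro t' ht'
        exact (hI.stab t' ht').mono Finset.subset_union_left (fun s hs => (hE.ext s hs).symm)
          (fun s hs => (hE.extb s hs).symm) (by omega) le_rfl (Set.subset_insert _ _)
      · intro N m h
        have := hI.base_le N m h
        omega
      · have h6 : 1 * (r + 1) ≤ (k + 1) * (r + 1) := Nat.mul_le_mul_right _ (by omega)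
        omega
    · push Not at hst
      have h6 : 1 * (r + 1) ≤ (k + 1) * (r + 1) := Nat.mul_le_mul_right _ (by omega)
      refine ⟨F, V, J, J + r, Tab, ⟨hI.fz, hI.card, ?_, hI.base_le, ?_, by omega, ?_⟩, le_rfl⟩
      · intro t' ht'
        rcases Nat.lt_or_ge t' t with h | h
        · exact (hI.stab t' h).mono (Finset.Subset.refl _) (fun _ _ => rfl) (fun _ _ => rfl) le_rfl
            (by omega) (Set.Subset.refl _)
        · have : t' = t := by omega
          subst this
          intro N x hNx J' h1 h2 E hE hacc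
          by_contra hcon
          exact hst N x hNx hcon J' h1 h2 E hE hacc
      · intro N m h1 h2 h3
        have h4 := hI.cap N m h1 h2 h3
        have h5 := hI.base_le N m h3
        omega
      · have := hI.leB
        omega

/-- The hypotheses of a stage. -/
structure Plan (c : Ctx S D e) (Θ : ℕ → ℕ) (G : ℕ → Finset (ℕ × ℕ)) (τ : ℕ) (R : ℕ → ℕ) (U : ℕ) :
    Prop where
  mono : ∀ t < τ, Θ t ≤ Θ (t + 1)
  grp : ∀ t < τ, ∀ N m, (N, m) ∈ G t → D.q N m ≤ Θ t ∧ Θ t < D.wl N m
  cover : ∀ N m, c.Sm N m → c.ℓ ≤ D.q N m → D.wl N m ≤ Θ τ → ∃ t < τ, (N, m) ∈ G t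
  step : ∀ t < τ, ((∑ f ∈ G t, 2 ^ f.2) + 1) * (R (t + 1) + 1) ≤ R t + 1
  last : U ≤ R τ
  first : R 0 ≤ 2 ^ (c.n - 1)
  cap : ∀ t ≤ τ, ∀ N m, c.ℓ ≤ D.q N m → ¬ c.Sm N m → D.wl N m ≤ Θ t →
    (∀ t' < t, Θ t' < D.wl N m) → R t < 2 ^ D.kl N m
  count : 2 ^ (c.n - 1) * Θ τ < 2 ^ (2 ^ e c.i c.n)

variable {Θ : ℕ → ℕ} {G : ℕ → Finset (ℕ × ℕ)} {τ : ℕ} {R : ℕ → ℕ} {U : ℕ}

theorem Plan.mono_le (h : Plan c Θ G τ R U) {a b : ℕ} (hab : a ≤ b) (hb : b ≤ τ) : Θ a ≤ Θ b := by
  induction b, hab using Nat.le_induction with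
  | base => exact le_rfl
  | succ b hab ih => exact le_trans (ih (by omega)) (h.mono b (by omega))

/-- Passing to the next depth. -/
theorem Inv.next (h : Plan c Θ G τ R U) {t θ : ℕ} (ht : t ≤ τ) {base : ℕ → ℕ → ℕ}
    {F : Finset (List Bool)} {V : S.W} {J B : ℕ} {Tab : Set (ℕ × List Bool)}
    (hI : Inv c Θ G (Θ τ) t θ base F V J B Tab) (hθ : ∀ t' < t, Θ t' ≤ θ) (hθt : θ ≤ Θ t)
    (hθ' : ∀ t' < t, ∀ N m, θ < D.wl N m → Θ t' < D.wl N m)
    (hr : J + R t ≤ B) : ∃ base', Inv c Θ G (Θ τ) t (Θ t) base' F V J (J + R t) Tab := by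
  classical
  set base' : ℕ → ℕ → ℕ := fun N m => if D.wl N m ≤ θ then base N m else J with hb
  have hb1 : ∀ N m, D.wl N m ≤ θ → base' N m = base N m := fun N m h => by
    simp only [hb, if_pos h]
  have hb2 : ∀ N m, ¬ D.wl N m ≤ θ → base' N m = J := fun N m h => by
    simp only [hb, if_neg h]
  have hwl : ∀ {N : ℕ} {x r w : List Bool}, cd N x r w ∈ S.bad F → w.length = D.wl N x.length →
      D.wl N x.length ≤ θ := by
    intro N x r w h hw
    have := bad_len hI.fz.len _ h
    have := length_lt_cd N x r w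
    omega
  refine ⟨base', ⟨⟨fun s hs => le_trans (hI.fz.len s hs) hθt, hI.fz.low, hI.fz.fixed, hI.fz.cens,
    hI.fz.codes, hI.fz.tests, ?_, hI.fz.small, hI.fz.acc⟩, hI.card, ?_, ?_, ?_, by omega, ?_⟩⟩
  · intro N x w j hmem h1 hw hj hq hs
    rw [hb1 _ _ (hwl hmem hw)]
    exact hI.fz.fresh N x w j hmem h1 hw hj hq hs
  · intro t' ht' N x hNx J' h1 h2 E hE hacc
    refine hI.stab t' ht' N x hNx J' h1 (by omega) E ?_ hacc
    exact hE.base fun N m hNm => (hb1 N m (le_trans hNm (hθ t' ht'))).symm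
  · intro N m _
    by_cases h1 : D.wl N m ≤ θ
    · rw [hb1 _ _ h1]
      exact hI.base_le N m h1
    · rw [hb2 _ _ h1]
  · intro N m h1 h2 h3
    by_cases h4 : D.wl N m ≤ θ
    · rw [hb1 _ _ h4]
      have := hI.cap N m h1 h2 h4
      omega
    · rw [hb2 _ _ h4]
      have := h.cap t ht N m h1 h2 h3 fun t' ht' => hθ' t' ht' N m (by omega)
      omega
  · have := hI.leB
    omega

/-- All phases. -/
theorem phases (h : Plan c Θ G τ R U) : ∀ t ≤ τ, ∃ (base : ℕ → ℕ → ℕ) (F : Finset (List Bool))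
    (V : S.W) (J B : ℕ) (Tab : Set (ℕ × List Bool)),
    Inv c Θ G (Θ τ) t (Θ t) base F V J B Tab ∧ J + R t ≤ B := by
  intro t
  induction t with
  | zero =>
    intro _
    have hb0 : S.bad ∅ = ∅ := by
      have := S.card_bad ∅
      rw [Finset.card_empty] at this
      exact Finset.card_eq_zero.1 (Nat.le_zero.1 this)
    have hI : Inv c Θ G (Θ τ) 0 0 (fun _ _ => 0) ∅ c.E₀ 0 (R 0) ∅ := by
      refine ⟨⟨by simp, fun _ _ => rfl, by simp [hb0], by simp [hb0], by simp [hb0], by simp [hb0],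
        by simp [hb0], by simp [hb0], by simp⟩, by simp,
        fun t' ht' => by omega, by simp, ?_, Nat.zero_le _, h.first⟩
      intro N m _ _ h3
      have := D.lt_wl N m
      have := Nat.two_pow_pos (D.clock N m)
      omega
    obtain ⟨base', hI'⟩ := hI.next h (Nat.zero_le _) (fun t' ht' => by omega) (Nat.zero_le _)
      (fun t' ht' => by omega) (by omega)
    exact ⟨base', _, _, _, _, _, hI', le_rfl⟩
  | succ t ih =>
    intro ht
    obtain ⟨base, F, V, J, B, Tab, hI, hB⟩ := ih (by omega)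
    have hk : ((univ (G t) : Set (ℕ × List Bool)) \ Tab).ncard ≤ ∑ f ∈ G t, 2 ^ f.2 := by
      refine le_trans (Set.ncard_le_ncard Set.sdiff_subset (Finset.finite_toSet _)) ?_
      rw [Set.ncard_coe_finset]
      exact card_univ_le _
    have hrec := h.step t (by omega)
    obtain ⟨F', V', J', B', Tab', hI', hB'⟩ := phase (r := R (t + 1)) (h.grp t (by omega))
      (h.mono_le (by omega) le_rfl) _ F V J B Tab (fun _ _ _ => trivial) hk (by omega) hI
    obtain ⟨base', hI''⟩ := hI'.next h (t := t + 1) ht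
      (fun t' ht' => h.mono_le (by omega) (by omega)) (h.mono t (by omega))
      (fun t' ht' N m h1 => lt_of_le_of_lt (h.mono_le (show t' ≤ t by omega) (by omega)) h1) hB'
    exact ⟨base', _, _, _, _, _, hI'', le_rfl⟩

/-- The completion during the last phase. -/
theorem Inv.build (h : Plan c Θ G τ R U) {base : ℕ → ℕ → ℕ} {F : Finset (List Bool)}
    {V : S.W} {J B : ℕ} {Tab : Set (ℕ × List Bool)}
    (hI : Inv c Θ G (Θ τ) τ (Θ τ) base F V J B Tab) :
    ∃ E, Leg c base (Θ τ) F V J E ∧ Good S D e (c.κ base (Θ τ) J) E ∧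
      ∀ j < J, xs c.n j ∈ Tst c.i (S.plain E) := by
  have hle := hI.le
  refine Pool.Agent.LibAL48.build hI.fz (le_trans hI.le hI.leB) ?_ ?_ ?_
  · intro N x hs hq hwl
    obtain ⟨t, ht, hG⟩ := h.cover N x.length hs hq hwl
    refine ⟨Θ t, (h.grp t ht N x.length hG).2, fun E hE hacc => ?_⟩
    exact hI.stab t ht N x hG J le_rfl hI.le E hE hacc
  · intro N m h1 h2 h3
    have := hI.cap N m h1 h2 h3
    omega
  · refine lt_of_le_of_lt hI.card (lt_of_le_of_lt (Nat.mul_le_mul_right _ ?_) h.count)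
    exact le_trans hI.le hI.leB

/-- One stage. -/
theorem stage (h : Plan c Θ G τ R U) {p : Prog} {T : ℕ} {A : Finset (List Bool)}
    (hA : A.card ≤ U) (hAU : U + 1 ≤ R τ + 1)
    (hAS : ∀ a ∈ A, ∀ x : List Bool, x.length = c.n → (pair x a).length + T ≤ Θ τ) :
    ∃ ρ E, Good S D e ρ E ∧ (∀ N m, D.q N m < c.ℓ → ρ N m = c.ρ₀ N m) ∧
      (∀ n < c.ℓ, E n = c.E₀ n) ∧ ∀ a ∈ A, Wrong S c.i E p T c.n a := by
  classical
  by_contra hcon
  push Not at hcon
  obtain ⟨base, F₀, V₀, J₀, B, Tab, hI₀, hB⟩ := phases h τ le_rfl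
  have hκ : ∀ J N m, D.q N m < c.ℓ → c.κ base (Θ τ) J N m = c.ρ₀ N m := fun J N m hq => by
    unfold Ctx.κ
    rw [if_pos hq]
  have key : ∀ j ≤ A.card, ∃ (F : Finset (List Bool)) (V : S.W)
      (Wr : Finset (List Bool)), Inv c Θ G (Θ τ) τ (Θ τ) base F V (J₀ + j) B Tab ∧ Wr ⊆ A ∧
      Wr.card = j ∧ ∀ E' : S.W, (∀ s ∈ F, S.rich E' s = S.rich V s) →
        (∀ i < J₀ + j, xs c.n i ∈ Tst c.i (S.plain E')) → ∀ a ∈ Wr, Wrong S c.i E' p T c.n a := by
    intro j
    induction j with
    | zero => intro _; exact ⟨F₀, V₀, ∅, hI₀, by simp, by simp, by simp⟩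
    | succ j ih =>
      intro hj
      obtain ⟨F, V, Wr, hI, hE, hEc, hw⟩ := ih (by omega)
      obtain ⟨E, hO, hgood, hx⟩ := hI.build h
      obtain ⟨a, haA, hwa⟩ := hcon _ E hgood (hκ _) hO.low
      have haE : a ∉ Wr := fun h' => hwa (hw E hO.ext hx a h')
      have hJlt : J₀ + j < 2 ^ (c.n - 1) := by
        have h1 := hI.leB
        omega
      set x := xs c.n (J₀ + j) with hxdef
      have hxn : x.length = c.n := length_xs c.hn
      have hxT : x ∉ Tst c.i (S.plain E) := by
        rintro ⟨w, hw'⟩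
        have := hO.cens (J₀ + j) hJlt w hw'
        omega
      have hacc : Acc (S.rich E) p T (pair x a) := by
        by_contra hna
        exact hwa ⟨x, hxn, fun h' => hna (h'.1 hxT)⟩
      obtain ⟨Q, hQ1, hQ2, hQ3⟩ := acc_use' hacc
      have hQlen : ∀ s ∈ Q, s.length ≤ Θ τ := fun s hs => le_trans (hQ2 s hs) (hAS a haA x hxn)
      have hfz : Fz c base (Θ τ) (F ∪ Q) E (J₀ + j + 1) Tab :=
        freeze hI.fz hO hQlen (fun N x h => Or.inl h) hI.base_le
      refine ⟨F ∪ Q, E, insert a Wr, ⟨hfz, ?_, ?_, ?_, hI.cap, ?_, hI.leB⟩,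
        Finset.insert_subset haA hE, by rw [Finset.card_insert_of_notMem haE, hEc], ?_⟩
      · refine le_trans (Finset.card_union_le _ _) ?_
        have h3 := hI.card
        have h4 : Q.card ≤ Θ τ := by
          have := hAS a haA x hxn
          omega
        have h5 : (J₀ + (j + 1)) * Θ τ = (J₀ + j) * Θ τ + Θ τ := by ring
        omega
      · intro t' ht'
        exact (hI.stab t' ht').mono Finset.subset_union_left (fun s hs => (hO.ext s hs).symm)
          (fun s hs => (hO.extb s hs).symm) (by omega) le_rfl (Set.Subset.refl _)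
      · intro N m h'
        have := hI.base_le N m h'
        omega
      · omega
      · intro E' hE' hX b hb
        rw [Finset.mem_insert] at hb
        rcases hb with rfl | hb
        · refine ⟨x, hxn, fun h' => ?_⟩
          have h10 : Acc (S.rich E') p T (pair x b) :=
            hQ3 _ fun s hs => hE' s (Finset.mem_union_right _ hs)
          exact h'.2 h10 (hX (J₀ + j) (by omega))
        · exact hw E' (fun s hs => by rw [hE' s (Finset.mem_union_left _ hs), hO.ext s hs])
            (fun i hi => hX i (by omega)) b hb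
  obtain ⟨F, V, Wr, hI, hE, hEc, hw⟩ := key A.card le_rfl
  have hEA : Wr = A := Finset.eq_of_subset_of_card_le hE (by omega)
  obtain ⟨E, hO, hgood, hx⟩ := hI.build h
  obtain ⟨a, haA, hwa⟩ := hcon _ E hgood (hκ _) hO.low
  exact hwa (hw E hO.ext hx a (by rw [hEA]; exact haA))

end Pool.Agent.LibAL48
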